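import Pool.Agent.Y735.LB.MainL
import Pool.Agent.Y735.Rho

/-!
Lines that meet the boundary in few points contain infinitely many integral points of bounded
degree.
-/

set_option autoImplicit false

open MvPolynomial LinearAlgebra.Projectivization
open Pool.Agent.TH145.GH
open Pool.Agent.Y735 (rho eval_rho rho_deg)

namespace Pool.Agent.Y735.LB

section inv

variable {K : Type} [Field K]

theorem taylor_mem {R : Subring K} {h : Polynomial K} (hR : ∀ i, h.coeff i ∈ R) {β : K}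
    (hβ : β ∈ R) (i : ℕ) : (Polynomial.taylor β h).coeff i ∈ R := by
  rw [Polynomial.taylor_coeff, Polynomial.eval_eq_sum_range]
  refine sum_mem fun j _ => mul_mem ?_ (pow_mem hβ _)
  rw [Polynomial.hasseDeriv_coeff]
  exact mul_mem (natCast_mem _ _) (hR _)

/-- If the value of a polynomial at `β` is a unit, then `1 / (X - β)` is integral for all roots
`X`. -/
theorem int_inv {R : Subring K} {h : Polynomial K} (hR : ∀ i, h.coeff i ∈ R) {β X : K}
    (hβ : β ∈ R) (hX : h.eval X = 0) (h0 : h.eval β ≠ 0) (hi : (h.eval β)⁻¹ ∈ R) :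
    X - β ≠ 0 ∧ IsIntegral R (X - β)⁻¹ := by
  have hne : X - β ≠ 0 := by
    intro h1
    rw [sub_eq_zero.1 h1] at hX
    exact h0 hX
  refine ⟨hne, ?_⟩
  obtain ⟨p, hp⟩ : ∃ p, p = Polynomial.taylor β h := ⟨_, rfl⟩
  have h1 : p.eval (X - β) = 0 := by
    rw [hp, Polynomial.taylor_eval, sub_add_cancel]
    exact hX
  have h2 : p.coeff 0 = h.eval β := by rw [hp, Polynomial.taylor_coeff_zero]
  obtain ⟨N, hN⟩ : ∃ N, N = p.natDegree := ⟨_, rfl⟩
  rw [Polynomial.eval_eq_sum_range, ← hN] at h1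
  have h3 : ∑ i ∈ Finset.range (N + 1), p.coeff (N - i) * ((X - β)⁻¹) ^ i = 0 := by
    rw [← Finset.sum_range_reflect]
    have h4 : ∑ i ∈ Finset.range (N + 1), p.coeff (N - (N + 1 - 1 - i)) *
        ((X - β)⁻¹) ^ (N + 1 - 1 - i) =
        ((X - β)⁻¹) ^ N * ∑ i ∈ Finset.range (N + 1), p.coeff i * (X - β) ^ i := by
      rw [Finset.mul_sum]
      refine Finset.sum_congr rfl fun i hi => ?_
      have h5 : i ≤ N := Nat.lt_succ_iff.1 (Finset.mem_range.1 hi)
      have h6 : N - (N + 1 - 1 - i) = i := by omega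
      have h7 : N + 1 - 1 - i = N - i := by omega
      rw [h6, h7]
      have h8 : ((X - β)⁻¹) ^ N = ((X - β)⁻¹) ^ (N - i) * ((X - β)⁻¹) ^ i := by
        rw [← pow_add]
        congr 1
        omega
      rw [h8]
      have h9 : ((X - β)⁻¹) ^ i * (X - β) ^ i = 1 := by
        rw [← mul_pow, inv_mul_cancel₀ hne, one_pow]
      linear_combination -(p.coeff i * ((X - β)⁻¹) ^ (N - i)) * h9
    rw [h4, h1, mul_zero]
  refine isIntegral_of_monic (N := N) (fun j => (⟨(h.eval β)⁻¹ * p.coeff (N - j), mul_mem hi (by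
    rw [hp]
    exact taylor_mem hR hβ _)⟩ : R)) ?_
  rw [Finset.sum_range_succ, Nat.sub_self, h2] at h3
  have h4 : ∑ i ∈ Finset.range N, algebraMap R K (⟨(h.eval β)⁻¹ * p.coeff (N - i), mul_mem hi (by
      rw [hp]
      exact taylor_mem hR hβ _)⟩ : R) * ((X - β)⁻¹) ^ i =
      (h.eval β)⁻¹ * ∑ i ∈ Finset.range N, p.coeff (N - i) * ((X - β)⁻¹) ^ i := by
    rw [Finset.mul_sum]
    refine Finset.sum_congr rfl fun i _ => ?_
    rw [← mul_assoc]
    rfl
  rw [h4]
  have h5 : (h.eval β)⁻¹ * h.eval β = 1 := inv_mul_cancel₀ h0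
  linear_combination (h.eval β)⁻¹ * h3 - ((X - β)⁻¹) ^ N * h5

/-- Monomials. -/
theorem mono_int {R : Subring K} {n d : ℕ} {x : Fin (n + 1) → K} {w : K}
    (h : ∀ j, IsIntegral R (x j ^ d / w)) (I : Fin (n + 1) →₀ ℕ) (hI : I.degree = d) :
    IsIntegral R ((∏ i, x i ^ I i) / w) := by
  have hI' : ∑ i, I i = d := by rw [← hI, Finsupp.degree_eq_sum]
  rcases Nat.eq_zero_or_pos d with hd | hd
  · have h1 : ∀ i, I i = 0 := fun i => by
      have h2 : I i ≤ ∑ i, I i := Finset.single_le_sum (f := fun i => I i)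
        (fun _ _ => Nat.zero_le _) (Finset.mem_univ i)
      omega
    have h2 : ∏ i, x i ^ I i = x 0 ^ d := by
      rw [hd, pow_zero]
      exact Finset.prod_eq_one fun i _ => by rw [h1, pow_zero]
    rw [h2]
    exact h 0
  · refine IsIntegral.of_pow hd ?_
    have h1 : ((∏ i, x i ^ I i) / w) ^ d = ∏ i, (x i ^ d / w) ^ I i := by
      have h2 : ∏ i, (x i ^ d / w) ^ I i = (∏ i, (x i ^ d) ^ I i) / ∏ i, w ^ I i := by
        rw [← Finset.prod_div_distrib]
        exact Finset.prod_congr rfl fun i _ => div_pow _ _ _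
      rw [h2, Finset.prod_pow_eq_pow_sum, hI', div_pow, ← Finset.prod_pow]
      congr 1
      exact Finset.prod_congr rfl fun i _ => by rw [← pow_mul, ← pow_mul, mul_comm]
    rw [h1]
    exact IsIntegral.prod _ fun i _ => (h i).pow _

end inv

section lines

variable {K : Type} [Field K] {n : ℕ}

theorem coeff_prod {ι : Type*} (s : Finset ι) (f : ι → Polynomial K) (m : ι → ℕ)
    (h : ∀ i ∈ s, (f i).natDegree ≤ m i) :
    (∏ i ∈ s, f i).coeff (∑ i ∈ s, m i) = ∏ i ∈ s, (f i).coeff (m i) ∧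
      (∏ i ∈ s, f i).natDegree ≤ ∑ i ∈ s, m i := by
  classical
  induction s using Finset.induction_on with
  | empty => simp
  | insert a s ha ih =>
    obtain ⟨ih1, ih2⟩ := ih fun i hi => h i (Finset.mem_insert_of_mem hi)
    have h1 := h a (Finset.mem_insert_self a s)
    rw [Finset.prod_insert ha, Finset.sum_insert ha, Finset.prod_insert ha]
    refine ⟨?_, Polynomial.natDegree_mul_le.trans (add_le_add h1 ih2)⟩
    rw [Polynomial.coeff_mul_add_eq_of_natDegree_le h1 ih2, ih1]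

/-- The leading coefficient of a form on a line. -/
theorem rho_top (x y : Fin (n + 1) → K) {d : ℕ} {F : MvPolynomial (Fin (n + 1)) K}
    (hF : F.IsHomogeneous d) : (rho x y F).coeff d = eval x F := by
  classical
  have h1 : rho x y F = ∑ u ∈ F.support, Polynomial.C (F.coeff u) *
      ∏ i, (Polynomial.C (x i) * Polynomial.X + Polynomial.C (y i)) ^ u i := by
    conv_lhs => rw [F.as_sum, map_sum]
    refine Finset.sum_congr rfl fun u _ => ?_
    rw [rho, aeval_monomial, Finsupp.prod_fintype _ _ (fun i => pow_zero _)]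
    rfl
  rw [h1, Polynomial.finsetSum_coeff, eval_eq']
  refine Finset.sum_congr rfl fun u hu => ?_
  rw [Polynomial.coeff_C_mul]
  congr 1
  have h2 : d = ∑ i, u i := by
    rw [← deg_of_mem hF hu, Finsupp.degree_eq_sum]
  have h3 : ∀ i, (Polynomial.C (x i) * Polynomial.X + Polynomial.C (y i)).natDegree ≤ 1 := by
    intro i
    refine Polynomial.natDegree_add_le_of_degree_le ?_ ?_
    · exact (Polynomial.natDegree_C_mul_le _ _).trans Polynomial.natDegree_X_le
    · rw [Polynomial.natDegree_C]; exact Nat.zero_le _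
  rw [h2, (coeff_prod Finset.univ _ (fun i => u i) fun i _ =>
    (Polynomial.natDegree_pow_le_of_le (u i) (h3 i)).trans (by rw [mul_one])).1]
  refine Finset.prod_congr rfl fun i _ => ?_
  have h4 := Polynomial.coeff_pow_of_natDegree_le (m := u i) (h3 i)
  rw [mul_one] at h4
  rw [h4]
  simp

theorem comb_ne {x y : Fin (n + 1) → K} (h : LinearIndependent K ![x, y]) (t : K) :
    t • x + y ≠ 0 := by
  intro h0
  rw [LinearIndependent.pair_iff] at h
  exact one_ne_zero (h t 1 (by rw [one_smul]; exact h0)).2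

theorem comb_inj {x y : Fin (n + 1) → K} (hli : LinearIndependent K ![x, y]) :
    Function.Injective fun t : K => Projectivization.mk K (t • x + y) (comb_ne hli t) := by
  intro s t hst
  obtain ⟨a, ha⟩ := (Projectivization.mk_eq_mk_iff' K _ _ _ _).1 hst
  have h1 : (a * t - s) • x + (a - 1) • y = 0 := by
    rw [sub_smul, sub_smul, mul_smul, one_smul]
    have h2 : a • t • x + a • y = s • x + y := by rw [← smul_add]; exact ha
    linear_combination (exp := 1) h2
  rw [LinearIndependent.pair_iff] at hli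
  obtain ⟨h2, h3⟩ := hli _ _ h1
  have h4 : a = 1 := sub_eq_zero.1 h3
  rw [h4, one_mul] at h2
  exact (sub_eq_zero.1 h2).symm

theorem rep_mk (v : Fin (n + 1) → K) (hv : v ≠ 0) :
    ∃ a : K, a ≠ 0 ∧ (Projectivization.mk K v hv).rep = a • v := by
  obtain ⟨a, ha⟩ := (Projectivization.mk_eq_mk_iff' K _ _ _ _).1
    (Projectivization.mk_rep (Projectivization.mk K v hv))
  refine ⟨a, ?_, ha.symm⟩
  rintro rfl
  rw [zero_smul] at ha
  exact (Projectivization.mk K v hv).rep_nonzero ha.symm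

theorem exists_pair_of_mem {W : Submodule K (Fin (n + 1) → K)} (hW : Module.finrank K W = 2)
    {x : Fin (n + 1) → K} (hx0 : x ≠ 0) : ∃ y ∈ W, LinearIndependent K ![x, y] := by
  by_contra hcon
  push Not at hcon
  have h1 : W ≤ Submodule.span K {x} := by
    intro y hy
    have h2 := hcon y hy
    rw [LinearIndependent.pair_iff] at h2
    push Not at h2
    obtain ⟨a, b, hab, hne⟩ := h2
    have hb : b ≠ 0 := by
      rintro rfl
      rw [zero_smul, add_zero] at hab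
      exact hne ((smul_eq_zero.1 hab).resolve_right hx0) rfl
    rw [Submodule.mem_span_singleton]
    refine ⟨-(a / b), ?_⟩
    have h3 : b • y = (-a) • x := by
      rw [neg_smul]
      exact eq_neg_of_add_eq_zero_right hab
    rw [← inv_smul_smul₀ hb y, h3, smul_smul]
    congr 1
    field_simp
  have h2 := Submodule.finrank_mono h1
  rw [finrank_span_singleton hx0] at h2
  omega

end lines

/-- The points of degree at most `r` over a ring `R`, on `V` and `F c = 0` for `c` in `C`, that are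
integral over `R` with respect to the hypersurfaces `F b = 0` of degree `d b` for `b` not in `C`. -/
def IPts {k K A : Type} [Field k] [Field K] [Algebra k K] {n : ℕ}
    (V : Set (MvPolynomial (Fin (n + 1)) k)) (F : A → MvPolynomial (Fin (n + 1)) K) (d : A → ℕ)
    (C : Finset A) (r : ℕ) (R : Subring K) : Set (ℙ K (Fin (n + 1) → K)) :=
  {p | ∃ (x : Fin (n + 1) → K) (hx : x ≠ 0), p = Projectivization.mk K x hx ∧
    (∃ L : IntermediateField (Subfield.closure (R : Set K)) K,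
      FiniteDimensional (Subfield.closure (R : Set K)) L ∧
      Module.finrank (Subfield.closure (R : Set K)) L ≤ r ∧ ∀ i, x i ∈ L) ∧
    (∀ f ∈ V, aeval x f = 0) ∧ (∀ c ∈ C, eval x (F c) = 0) ∧
    ∀ b, b ∉ C → eval x (F b) ≠ 0 ∧ ∀ I : Fin (n + 1) →₀ ℕ, I.degree = d b →
      IsIntegral R ((∏ i, x i ^ I i) / eval x (F b))}

/-- A root of a polynomial of degree at most `r`. -/
theorem exists_adj {K : Type} [Field K] {R : Subring K} {h : Polynomial K}
    (hR : ∀ i, h.coeff i ∈ R) {r : ℕ} (hr : h.natDegree ≤ r) (hh : h ≠ 0) {X : K}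
    (hX : h.eval X = 0) : ∃ L : IntermediateField (Subfield.closure (R : Set K)) K,
      FiniteDimensional (Subfield.closure (R : Set K)) L ∧
      Module.finrank (Subfield.closure (R : Set K)) L ≤ r ∧ X ∈ L := by
  have h1 : h ∈ Polynomial.lifts (algebraMap (Subfield.closure (R : Set K)) K) := by
    rw [Polynomial.lifts_iff_coeff_lifts]
    intro i
    exact ⟨⟨h.coeff i, Subfield.subset_closure (hR i)⟩, rfl⟩
  obtain ⟨g, hg⟩ := h1
  have hg' : g.map (algebraMap (Subfield.closure (R : Set K)) K) = h := hg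
  have hg0 : g ≠ 0 := by
    rintro rfl
    rw [Polynomial.map_zero] at hg'
    exact hh hg'.symm
  have hgX : Polynomial.aeval X g = 0 := by
    rw [Polynomial.aeval_def, ← Polynomial.eval_map, hg']
    exact hX
  have hi : IsIntegral (Subfield.closure (R : Set K)) X :=
    (show IsAlgebraic (Subfield.closure (R : Set K)) X from ⟨g, hg0, hgX⟩).isIntegral
  refine ⟨IntermediateField.adjoin (Subfield.closure (R : Set K)) {X},
    IntermediateField.adjoin.finiteDimensional hi, ?_,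
    IntermediateField.subset_adjoin _ _ (Set.mem_singleton X)⟩
  rw [IntermediateField.adjoin.finrank hi]
  refine (Polynomial.natDegree_le_natDegree (minpoly.degree_le_of_ne_zero _ X hg0 hgX)).trans ?_
  rw [← Polynomial.natDegree_map (algebraMap (Subfield.closure (R : Set K)) K), hg']
  exact hr

theorem conv_aux {k K A : Type} [Field k] [Field K] [Algebra k K] [IsAlgClosed K] {n : ℕ}
    {V : Set (MvPolynomial (Fin (n + 1)) k)} {F : A → MvPolynomial (Fin (n + 1)) K} {d : A → ℕ}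
    (hF : ∀ a, (F a).IsHomogeneous (d a)) {C : Finset A} {r : ℕ} {R : Subring K}
    {x y : Fin (n + 1) → K} (hxy : LinearIndependent K ![x, y])
    (hV : ∀ t : K, (∀ f ∈ V, aeval (t • x + y) f = 0) ∧ ∀ c ∈ C, eval (t • x + y) (F c) = 0)
    (hxR : ∀ i, x i ∈ R) (hyR : ∀ i, y i ∈ R)
    (hb0 : ∀ b, b ∉ C → eval x (F b) ≠ 0 ∧ (eval x (F b))⁻¹ ∈ R)
    {t : Finset K} (htR : ∀ β ∈ t, β ∈ R)
    (ht : ∀ b, b ∉ C → ∀ β, eval (β • x + y) (F b) = 0 → β ∈ t)
    {h : Polynomial K} (hR : ∀ i, h.coeff i ∈ R) (hr : h.natDegree ≤ r) (hh : h ≠ 0)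
    (hu : ∀ β ∈ t, h.eval β ≠ 0 ∧ (h.eval β)⁻¹ ∈ R) {X : K} (hX : h.eval X = 0) :
    Projectivization.mk K (X • x + y) (comb_ne hxy X) ∈ IPts V F d C r R := by
  obtain ⟨L, hL1, hL2, hXL⟩ := exists_adj hR hr hh hX
  have hRL : ∀ z ∈ R, z ∈ L := fun z hz =>
    L.algebraMap_mem (⟨z, Subfield.subset_closure hz⟩ : Subfield.closure (R : Set K))
  refine ⟨X • x + y, comb_ne hxy X, rfl, ⟨L, hL1, hL2, fun i => ?_⟩, (hV X).1, (hV X).2,
    fun b hb => ?_⟩
  · rw [Pi.add_apply, Pi.smul_apply, smul_eq_mul]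
    exact add_mem (mul_mem hXL (hRL _ (hxR i))) (hRL _ (hyR i))
  · obtain ⟨P, hP⟩ : ∃ P, P = rho x y (F b) := ⟨_, rfl⟩
    have h1 : P.coeff (d b) = eval x (F b) := by rw [hP]; exact rho_top x y (hF b)
    have h2 : P.natDegree = d b := by
      refine le_antisymm (by rw [hP]; exact rho_deg x y (hF b))
        (Polynomial.le_natDegree_of_ne_zero ?_)
      rw [h1]
      exact (hb0 b hb).1
    have h3 : P.leadingCoeff = eval x (F b) := by
      rw [← Polynomial.coeff_natDegree, h2, h1]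
    have hspl : P.Splits := IsAlgClosed.splits P
    have h4 := hspl.eq_prod_roots
    have h5 : Multiset.card P.roots = d b := by
      rw [← h2]
      exact hspl.natDegree_eq_card_roots.symm
    have hroot : ∀ β ∈ P.roots, β ∈ t := by
      intro β hβ
      refine ht b hb β ?_
      have h6 := (Polynomial.mem_roots'.1 hβ).2
      rw [Polynomial.IsRoot, hP, eval_rho] at h6
      exact h6
    have h6 : eval (X • x + y) (F b) =
        eval x (F b) * (P.roots.map fun β => X - β).prod := by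
      have h7 := congrArg (Polynomial.eval X) h4
      rw [Polynomial.eval_mul, Polynomial.eval_C, Polynomial.eval_multiset_prod,
        Multiset.map_map, h3] at h7
      rw [← eval_rho, ← hP, h7]
      congr 2
      refine Multiset.map_congr rfl fun β _ => ?_
      simp
    have h7 : ∀ β ∈ P.roots, X - β ≠ 0 ∧ IsIntegral R (X - β)⁻¹ := fun β hβ =>
      int_inv hR (htR β (hroot β hβ)) hX (hu β (hroot β hβ)).1 (hu β (hroot β hβ)).2
    have h8 : eval (X • x + y) (F b) ≠ 0 := by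
      rw [h6]
      refine mul_ne_zero (hb0 b hb).1 ?_
      rw [Ne, Multiset.prod_eq_zero_iff, Multiset.mem_map]
      rintro ⟨β, hβ, h0⟩
      exact (h7 β hβ).1 h0
    refine ⟨h8, fun I hI => mono_int (fun j => ?_) I hI⟩
    have h9 : (X • x + y) j ^ d b / eval (X • x + y) (F b) = (eval x (F b))⁻¹ *
        (P.roots.map fun β => (X • x + y) j * (X - β)⁻¹).prod := by
      rw [h6, Multiset.prod_map_mul, Multiset.map_const', Multiset.prod_replicate, h5,
        Multiset.prod_map_inv, div_eq_mul_inv, mul_inv]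
      ring
    rw [h9]
    have hint : ∀ z ∈ R, IsIntegral R z := fun z hz =>
      isIntegral_algebraMap (R := R) (A := K) (x := ⟨z, hz⟩)
    refine IsIntegral.mul (hint _ (hb0 b hb).2) (IsIntegral.multiset_prod fun z hz => ?_)
    rw [Multiset.mem_map] at hz
    obtain ⟨β, hβ, rfl⟩ := hz
    obtain ⟨h10, h11⟩ := h7 β hβ
    have h12 : (X • x + y) j * (X - β)⁻¹ = x j + (β * x j + y j) * (X - β)⁻¹ := by
      rw [Pi.add_apply, Pi.smul_apply, smul_eq_mul]
      field_simp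
      ring
    rw [h12]
    exact (hint _ (hxR j)).add ((hint _ (add_mem (mul_mem (htR β (hroot β hβ)) (hxR j))
      (hyR j))).mul h11)

section core

variable {K : Type} [Field K]

theorem prod_lifts {R : Subring K} {B : Finset K} (hB : ∀ β ∈ B, β ∈ R) :
    (∏ β ∈ B, (Polynomial.X - Polynomial.C β)) ∈ Polynomial.lifts R.subtype := by
  refine Subsemiring.prod_mem _ fun β hβ => ?_
  rw [Polynomial.lifts_iff_coeff_lifts]
  intro i
  refine ⟨⟨(Polynomial.X - Polynomial.C β).coeff i, ?_⟩, rfl⟩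
  rw [Polynomial.coeff_sub, Polynomial.coeff_X, Polynomial.coeff_C]
  refine sub_mem ?_ ?_
  · split_ifs
    · exact one_mem _
    · exact zero_mem _
  · split_ifs
    · exact hB β hβ
    · exact zero_mem _

theorem prod_coeff_mem {R : Subring K} {B : Finset K} (hB : ∀ β ∈ B, β ∈ R) (i : ℕ) :
    (∏ β ∈ B, (Polynomial.X - Polynomial.C β)).coeff i ∈ R := by
  have h1 := prod_lifts hB
  rw [Polynomial.lifts_iff_coeff_lifts] at h1
  obtain ⟨w, hw⟩ := h1 i
  rw [← hw]
  exact w.2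

theorem prod_monic (B : Finset K) : (∏ β ∈ B, (Polynomial.X - Polynomial.C β)).Monic ∧
    (∏ β ∈ B, (Polynomial.X - Polynomial.C β)).natDegree = B.card := by
  have h1 : (∏ β ∈ B, (Polynomial.X - Polynomial.C β)).Monic :=
    Polynomial.monic_prod_of_monic _ _ fun β _ => Polynomial.monic_X_sub_C β
  refine ⟨h1, ?_⟩
  rw [Polynomial.natDegree_prod_of_monic _ _ fun β _ => Polynomial.monic_X_sub_C β]
  simp

theorem prod_eval (B : Finset K) (a : K) :
    (∏ β ∈ B, (Polynomial.X - Polynomial.C β)).eval a = 0 ↔ a ∈ B := by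
  rw [Polynomial.eval_prod, Finset.prod_eq_zero_iff]
  constructor
  · rintro ⟨β, hβ, h⟩
    rw [Polynomial.eval_sub, Polynomial.eval_X, Polynomial.eval_C, sub_eq_zero] at h
    rw [h]
    exact hβ
  · intro h
    exact ⟨a, h, by simp⟩

theorem conv_core {k A : Type} [Field k] [Algebra k K] [IsAlgClosed K] {n : ℕ}
    {V : Set (MvPolynomial (Fin (n + 1)) k)} {F : A → MvPolynomial (Fin (n + 1)) K} {d : A → ℕ}
    (hF : ∀ a, (F a).IsHomogeneous (d a)) {C : Finset A} {r : ℕ} (hr : 0 < r) {R : Subring K}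
    {W : Submodule K (Fin (n + 1) → K)}
    {x y : Fin (n + 1) → K} (hx : x ∈ W) (hy : y ∈ W) (hxy : LinearIndependent K ![x, y])
    (hV : ∀ t : K, (∀ f ∈ V, aeval (t • x + y) f = 0) ∧ ∀ c ∈ C, eval (t • x + y) (F c) = 0)
    (hxR : ∀ i, x i ∈ R) (hyR : ∀ i, y i ∈ R)
    (hb0 : ∀ b, b ∉ C → eval x (F b) ≠ 0 ∧ (eval x (F b))⁻¹ ∈ R)
    {B0 B1 E : Finset K} (h0R : ∀ β ∈ B0, β ∈ R) (h1R : ∀ β ∈ B1, β ∈ R)
    (hER : ∀ β ∈ E, β ∈ R)
    (ht : ∀ b, b ∉ C → ∀ β, eval (β • x + y) (F b) = 0 → β ∈ B0 ∨ β ∈ B1 ∨ β ∈ E)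
    (h0c : B0.card = r) (h1c : B1.card = r) (h01 : ∀ β ∈ B0, β ∉ B1) (hE1 : ∀ β ∈ E, β ∉ B1)
    {c : K} (hc : c ≠ 0) (hcR : c ∈ R)
    (hE : ∀ β ∈ E, c * (∏ β ∈ B0, (Polynomial.X - Polynomial.C β)).eval β =
      (∏ β ∈ B1, (Polynomial.X - Polynomial.C β)).eval β)
    (hgi : ∀ β, β ∈ B0 ∨ β ∈ E → ((∏ β ∈ B1, (Polynomial.X - Polynomial.C β)).eval β)⁻¹ ∈ R)
    (hfi : ∀ β ∈ B1, (c * (∏ β ∈ B0, (Polynomial.X - Polynomial.C β)).eval β)⁻¹ ∈ R)
    {U : Set K} (hU : U.Infinite) (hUR : ∀ u ∈ U, u ≠ 0 ∧ u ∈ R ∧ u⁻¹ ∈ R ∧ u ≠ c ∧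
      ∀ β ∈ E, 1 - u ≠ 0 ∧ (1 - u)⁻¹ ∈ R) :
    {p : ℙ K (Fin (n + 1) → K) | p ∈ IPts V F d C r R ∧ p.rep ∈ W}.Infinite := by
  classical
  obtain ⟨f, hf⟩ : ∃ f, f = ∏ β ∈ B0, (Polynomial.X - Polynomial.C β) := ⟨_, rfl⟩
  obtain ⟨g, hg⟩ : ∃ g, g = ∏ β ∈ B1, (Polynomial.X - Polynomial.C β) := ⟨_, rfl⟩
  obtain ⟨hfm, hfd⟩ := prod_monic B0
  obtain ⟨hgm, hgd⟩ := prod_monic B1
  have hfe := prod_eval B0
  have hge := prod_eval B1
  have hfR := fun i => prod_coeff_mem h0R i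
  have hgR := fun i => prod_coeff_mem h1R i
  rw [← hf] at hfm hfd hfe hfR hE hfi
  rw [← hg] at hgm hgd hge hgR hE hgi
  rw [h0c] at hfd
  rw [h1c] at hgd
  obtain ⟨t, htd⟩ : ∃ t : Finset K, t = B0 ∪ (B1 ∪ E) := ⟨_, rfl⟩
  have htm : ∀ β, β ∈ t ↔ β ∈ B0 ∨ β ∈ B1 ∨ β ∈ E := fun β => by
    rw [htd, Finset.mem_union, Finset.mem_union]
  obtain ⟨h, hh⟩ : ∃ h : K → Polynomial K, ∀ u, h u = Polynomial.C c * f - Polynomial.C u * g :=
    ⟨_, fun _ => rfl⟩
  have hhe : ∀ u a, (h u).eval a = c * f.eval a - u * g.eval a := fun u a => by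
    rw [hh, Polynomial.eval_sub, Polynomial.eval_mul, Polynomial.eval_C, Polynomial.eval_mul,
      Polynomial.eval_C]
  have hhd : ∀ u, (h u).natDegree ≤ r := by
    intro u
    rw [hh]
    refine (Polynomial.natDegree_sub_le _ _).trans (max_le ?_ ?_)
    · exact (Polynomial.natDegree_C_mul_le _ _).trans hfd.le
    · exact (Polynomial.natDegree_C_mul_le _ _).trans hgd.le
  have hhr : ∀ u, (h u).coeff r = c - u := by
    intro u
    have h1 := hfm.coeff_natDegree
    have h2 := hgm.coeff_natDegree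
    rw [hfd] at h1
    rw [hgd] at h2
    rw [hh, Polynomial.coeff_sub, Polynomial.coeff_C_mul, Polynomial.coeff_C_mul, h1, h2]
    ring
  have hhn : ∀ u ∈ U, h u ≠ 0 ∧ (h u).degree ≠ 0 := by
    intro u hu
    have h1 : (h u).coeff r ≠ 0 := by
      rw [hhr]
      exact sub_ne_zero.2 (hUR u hu).2.2.2.1.symm
    refine ⟨fun h0 => h1 (by rw [h0, Polynomial.coeff_zero]), fun h0 => h1 ?_⟩
    refine Polynomial.coeff_eq_zero_of_degree_lt ?_
    rw [h0]
    exact_mod_cast hr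
  have hroot : ∀ u, ∃ X : K, u ∈ U → (h u).eval X = 0 := by
    intro u
    by_cases hu : u ∈ U
    · obtain ⟨X, hX⟩ := IsAlgClosed.exists_root (h u) (hhn u hu).2
      exact ⟨X, fun _ => hX⟩
    · exact ⟨0, fun h => absurd h hu⟩
  choose X hX using hroot
  have hunit : ∀ u ∈ U, ∀ β ∈ t, (h u).eval β ≠ 0 ∧ ((h u).eval β)⁻¹ ∈ R := by
    intro u hu β hβ
    obtain ⟨hu0, huR, huiR, huc, huE⟩ := hUR u hu
    rw [hhe]
    rcases (htm β).1 hβ with hβ | hβ | hβ
    · have h1 : f.eval β = 0 := (hfe β).2 hβ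
      have h2 : g.eval β ≠ 0 := fun h0 => h01 β hβ ((hge β).1 h0)
      rw [h1, mul_zero, zero_sub]
      refine ⟨neg_ne_zero.2 (mul_ne_zero hu0 h2), ?_⟩
      rw [inv_neg, mul_inv]
      exact neg_mem (mul_mem huiR (hgi β (Or.inl hβ)))
    · have h1 : g.eval β = 0 := (hge β).2 hβ
      have h2 : f.eval β ≠ 0 := fun h0 => h01 β ((hfe β).1 h0) hβ
      rw [h1, mul_zero, sub_zero]
      exact ⟨mul_ne_zero hc h2, hfi β hβ⟩
    · have h2 : g.eval β ≠ 0 := fun h0 => hE1 β hβ ((hge β).1 h0)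
      rw [hE β hβ, show g.eval β - u * g.eval β = (1 - u) * g.eval β by ring, mul_inv]
      exact ⟨mul_ne_zero (huE β hβ).1 h2, mul_mem (huE β hβ).2 (hgi β (Or.inr hβ))⟩
  have htR : ∀ β ∈ t, β ∈ R := by
    intro β hβ
    rcases (htm β).1 hβ with hβ | hβ | hβ
    · exact h0R β hβ
    · exact h1R β hβ
    · exact hER β hβ
  have hhR : ∀ u ∈ U, ∀ i, (h u).coeff i ∈ R := by
    intro u hu i
    rw [hh, Polynomial.coeff_sub, Polynomial.coeff_C_mul, Polynomial.coeff_C_mul]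
    exact sub_mem (mul_mem hcR (hfR i)) (mul_mem (hUR u hu).2.1 (hgR i))
  refine Set.infinite_of_injOn_mapsTo (s := U)
    (f := fun u => Projectivization.mk K (X u • x + y) (comb_ne hxy (X u))) ?_ ?_ hU
  · intro u hu u' hu' huu
    have h1 : X u = X u' := comb_inj hxy huu
    have h2 := hX u hu
    have h3 := hX u' hu'
    rw [← h1] at h3
    rw [hhe] at h2 h3
    have h4 : g.eval (X u) ≠ 0 := by
      intro h0
      have h5 : X u ∈ B1 := (hge _).1 h0
      exact (hunit u hu (X u) ((htm _).2 (Or.inr (Or.inl h5)))).1 (hX u hu)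
    exact mul_right_cancel₀ h4 (by linear_combination h3 - h2)
  · intro u hu
    refine ⟨conv_aux hF hxy hV hxR hyR hb0 htR (fun b hb β h0 => (htm β).2 (ht b hb β h0))
      (hhR u hu) (hhd u) (hhn u hu).1 (hunit u hu) (hX u hu), ?_⟩
    obtain ⟨a, -, ha⟩ := rep_mk (X u • x + y) (comb_ne hxy (X u))
    rw [ha]
    exact W.smul_mem _ (W.add_mem (W.smul_mem _ hx) hy)

end core

/-- Parameters for a line. -/
theorem exists_line {K A : Type} [Field K] [IsAlgClosed K] {n : ℕ}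
    {F : A → MvPolynomial (Fin (n + 1)) K} {d : A → ℕ} (hF : ∀ a, (F a).IsHomogeneous (d a))
    {C : Finset A} {W : Submodule K (Fin (n + 1) → K)} (hW : Module.finrank K W = 2) {N : ℕ}
    (hB : {p : ℙ K (Fin (n + 1) → K) | p.rep ∈ W ∧ ∃ b, b ∉ C ∧
      eval p.rep (F b) = 0}.encard ≤ N) :
    ∃ (x y : Fin (n + 1) → K) (t : Finset K), LinearIndependent K ![x, y] ∧ x ∈ W ∧ y ∈ W ∧
      (∀ b, b ∉ C → eval x (F b) ≠ 0) ∧ t.card = N ∧
      ∀ b, b ∉ C → ∀ β, eval (β • x + y) (F b) = 0 → β ∈ t := by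
  classical
  have hinf : Infinite K := IsAlgClosed.instInfinite
  obtain ⟨x0, hx0, hx00⟩ : ∃ x ∈ W, x ≠ 0 := by
    by_contra hcon
    push Not at hcon
    have : W = ⊥ := (Submodule.eq_bot_iff _).2 hcon
    rw [this, finrank_bot] at hW
    omega
  obtain ⟨y0, hy0, hli0⟩ := exists_pair_of_mem hW hx00
  have hfin : {p : ℙ K (Fin (n + 1) → K) | p.rep ∈ W ∧ ∃ b, b ∉ C ∧
      eval p.rep (F b) = 0}.Finite := by
    rw [← Set.encard_lt_top_iff]
    exact hB.trans_lt (ENat.natCast_lt_top N)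
  have hrange : (Set.range fun t : K => Projectivization.mk K (t • x0 + y0)
      (comb_ne hli0 t)).Infinite := Set.infinite_range_of_injective (comb_inj hli0)
  obtain ⟨p, ⟨s, rfl⟩, hp⟩ := (hrange.sdiff hfin).nonempty
  obtain ⟨x, hx⟩ : ∃ x, x = s • x0 + y0 := ⟨_, rfl⟩
  have hxW : x ∈ W := by
    rw [hx]
    exact W.add_mem (W.smul_mem _ hx0) hy0
  have hxn : x ≠ 0 := by rw [hx]; exact comb_ne hli0 s
  have hxb : ∀ b, b ∉ C → eval x (F b) ≠ 0 := by
    intro b hb h0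
    apply hp
    obtain ⟨a, -, ha'⟩ := rep_mk (s • x0 + y0) (comb_ne hli0 s)
    have ha : (Projectivization.mk K (s • x0 + y0) (comb_ne hli0 s)).rep = a • x :=
      ha'.trans (by rw [hx])
    refine ⟨?_, b, hb, ?_⟩
    · dsimp only
      rw [ha]
      exact W.smul_mem _ hxW
    · dsimp only
      rw [ha, eval_smul_hom (hF b), h0, mul_zero]
  obtain ⟨y, hy, hli⟩ := exists_pair_of_mem hW hxn
  obtain ⟨S, hS⟩ : ∃ S : Set K, S = {β | ∃ b, b ∉ C ∧ eval (β • x + y) (F b) = 0} := ⟨_, rfl⟩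
  have hSN : S.encard ≤ N := by
    rw [← (comb_inj hli).encard_image]
    refine (Set.encard_le_encard ?_).trans hB
    rintro _ ⟨β, hβ, rfl⟩
    rw [hS] at hβ
    obtain ⟨b, hb, h0⟩ := hβ
    obtain ⟨a, -, ha⟩ := rep_mk (β • x + y) (comb_ne hli β)
    refine ⟨?_, b, hb, ?_⟩
    · dsimp only
      rw [ha]
      exact W.smul_mem _ (W.add_mem (W.smul_mem _ hxW) hy)
    · dsimp only
      rw [ha, eval_smul_hom (hF b), h0, mul_zero]
  have hSf : S.Finite := by
    rw [← Set.encard_lt_top_iff]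
    exact hSN.trans_lt (ENat.natCast_lt_top N)
  have hSc : hSf.toFinset.card ≤ N := by
    have h1 := hSf.encard_eq_coe_toFinset_card
    rw [h1] at hSN
    exact_mod_cast hSN
  obtain ⟨t, hSt, htN⟩ := Infinite.exists_superset_card_eq hSf.toFinset N hSc
  refine ⟨x, y, t, hli, hxW, hy, hxb, htN, fun b hb β h0 => hSt ?_⟩
  rw [Set.Finite.mem_toFinset, hS]
  exact ⟨b, hb, h0⟩

/-- Lines that meet the boundary in at most `2 r + 1` points have infinitely many integral points of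
degree at most `r` over an algebra of finite type over an algebraically closed field. -/
theorem conv_line1 {k K A : Type} [Field k] [Field K] [Algebra k K] [IsAlgClosed K] [Fintype A]
    {n : ℕ} (V : Set (MvPolynomial (Fin (n + 1)) (algebraicClosure k K)))
    {F : A → MvPolynomial (Fin (n + 1)) K} {d : A → ℕ}
    (hF : ∀ a, (F a).IsHomogeneous (d a)) {C : Finset A} {r : ℕ} (hr : 0 < r)
    {W : Submodule K (Fin (n + 1) → K)} (hW : Module.finrank K W = 2)
    (hWV : ∀ f ∈ V, ∀ v ∈ W, aeval v f = 0) (hWC : ∀ c ∈ C, ∀ v ∈ W, eval v (F c) = 0)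
    (hB : {p : ℙ K (Fin (n + 1) → K) | p.rep ∈ W ∧ ∃ b, b ∉ C ∧
      eval p.rep (F b) = 0}.encard ≤ (2 * r + 1 : ℕ)) :
    ∃ T : Finset K, {p | p ∈ IPts V F d C r
      (Subring.closure ((algebraicClosure k K : Set K) ∪ (T : Set K))) ∧ p.rep ∈ W}.Infinite := by
  classical
  have hac : IsAlgClosed (algebraicClosure k K) := (algebraicClosure.isAlgClosure k K).isAlgClosed
  have hinf : Infinite (algebraicClosure k K) := IsAlgClosed.instInfinite
  obtain ⟨x, y, t, hli, hx, hy, hxb, htN, ht⟩ := exists_line hF hW hB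
  obtain ⟨B0, hB0t, hB0⟩ := Finset.exists_subset_card_eq (s := t) (n := r) (by omega)
  obtain ⟨B1, hB1t, hB1⟩ := Finset.exists_subset_card_eq (s := t \ B0) (n := r) (by
    rw [Finset.card_sdiff_of_subset hB0t]; omega)
  obtain ⟨E, hE⟩ : ∃ E, E = (t \ B0) \ B1 := ⟨_, rfl⟩
  have hEc : E.card = 1 := by
    rw [hE, Finset.card_sdiff_of_subset hB1t, Finset.card_sdiff_of_subset hB0t]
    omega
  obtain ⟨β1, hβ1⟩ := Finset.card_eq_one.1 hEc
  have hβE : β1 ∈ E := by rw [hβ1]; exact Finset.mem_singleton_self _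
  have hEβ : ∀ β ∈ E, β = β1 := fun β hβ => by
    rw [hβ1] at hβ
    exact Finset.mem_singleton.1 hβ
  have h01 : ∀ β ∈ B0, β ∉ B1 := fun β h0 h1 => (Finset.mem_sdiff.1 (hB1t h1)).2 h0
  have hE1 : ∀ β ∈ E, β ∉ B1 := fun β h => by
    rw [hE] at h
    exact (Finset.mem_sdiff.1 h).2
  have hE0 : ∀ β ∈ E, β ∉ B0 := fun β h => by
    rw [hE] at h
    exact (Finset.mem_sdiff.1 (Finset.mem_sdiff.1 h).1).2
  have htm : ∀ β ∈ t, β ∈ B0 ∨ β ∈ B1 ∨ β ∈ E := by
    intro β hβ
    by_cases h0 : β ∈ B0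
    · exact Or.inl h0
    by_cases h1 : β ∈ B1
    · exact Or.inr (Or.inl h1)
    · right; right
      rw [hE]
      exact Finset.mem_sdiff.2 ⟨Finset.mem_sdiff.2 ⟨hβ, h0⟩, h1⟩
  obtain ⟨c, hcd⟩ : ∃ c : K, c = (∏ β ∈ B1, (Polynomial.X - Polynomial.C β)).eval β1 /
    (∏ β ∈ B0, (Polynomial.X - Polynomial.C β)).eval β1 := ⟨_, rfl⟩
  have hf1 : (∏ β ∈ B0, (Polynomial.X - Polynomial.C β)).eval β1 ≠ 0 := fun h0 =>
    hE0 β1 hβE ((prod_eval B0 β1).1 h0)
  have hg1 : (∏ β ∈ B1, (Polynomial.X - Polynomial.C β)).eval β1 ≠ 0 := fun h0 =>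
    hE1 β1 hβE ((prod_eval B1 β1).1 h0)
  have hc : c ≠ 0 := by
    rw [hcd]
    exact div_ne_zero hg1 hf1
  obtain ⟨T, hT⟩ : ∃ T : Finset K, T = Finset.univ.image x ∪ (Finset.univ.image y ∪
    (t ∪ ({c} ∪ (Finset.univ.image (fun b => (eval x (F b))⁻¹) ∪
      (t.image (fun β => ((∏ β ∈ B1, (Polynomial.X - Polynomial.C β)).eval β)⁻¹) ∪
      t.image (fun β => (c * (∏ β ∈ B0, (Polynomial.X - Polynomial.C β)).eval β)⁻¹)))))) :=
    ⟨_, rfl⟩
  refine ⟨T, ?_⟩
  obtain ⟨R, hR⟩ : ∃ R, R = Subring.closure ((algebraicClosure k K : Set K) ∪ (T : Set K)) :=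
    ⟨_, rfl⟩
  have hTR : ∀ z ∈ T, z ∈ R := by
    intro z hz
    rw [hR]
    exact Subring.subset_closure (Or.inr (Finset.mem_coe.2 hz))
  have hkR : ∀ z : algebraicClosure k K, (z : K) ∈ R := by
    intro z
    rw [hR]
    exact Subring.subset_closure (Or.inl z.2)
  rw [← hR]
  have htR : ∀ β ∈ t, β ∈ R := fun β hβ => hTR _ (by rw [hT]; simp [hβ])
  have hB0t' : ∀ β ∈ B0, β ∈ t := fun β h => hB0t h
  have hB1t' : ∀ β ∈ B1, β ∈ t := fun β h => (Finset.mem_sdiff.1 (hB1t h)).1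
  have hEt' : ∀ β ∈ E, β ∈ t := fun β h => by
    rw [hE] at h
    exact (Finset.mem_sdiff.1 (Finset.mem_sdiff.1 h).1).1
  refine conv_core (k := algebraicClosure k K) (E := E) (c := c) hF hr hx hy hli
    (fun s => ⟨fun f hf => hWV f hf _ (W.add_mem (W.smul_mem _ hx) hy), fun c hc =>
      hWC c hc _ (W.add_mem (W.smul_mem _ hx) hy)⟩)
    (fun i => hTR _ (by rw [hT]; simp)) (fun i => hTR _ (by rw [hT]; simp))
    (fun b hb => ⟨hxb b hb, hTR _ (by rw [hT]; simp)⟩)
    (fun β hβ => htR β (hB0t' β hβ)) (fun β hβ => htR β (hB1t' β hβ))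
    (fun β hβ => htR β (hEt' β hβ))
    (fun b hb β h0 => htm β (ht b hb β h0)) hB0 hB1 h01 hE1 hc
    (hTR _ (by rw [hT]; simp)) (fun β hβ => ?_) (fun β hβ => ?_) (fun β hβ => ?_)
    (U := (fun u : algebraicClosure k K => (u : K)) ''
      {u | u ≠ 0 ∧ u ≠ 1 ∧ (u : K) ≠ c}) ?_ ?_
  · rw [hEβ β hβ, hcd, div_mul_cancel₀ _ hf1]
  · refine hTR _ ?_
    rw [hT]
    have h1 : β ∈ t := hβ.elim (hB0t' β) (hEt' β)
    have h2 := Finset.mem_image_of_mem
      (fun β => ((∏ β ∈ B1, (Polynomial.X - Polynomial.C β)).eval β)⁻¹) h1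
    simp only [Finset.mem_union]
    tauto
  · refine hTR _ ?_
    rw [hT]
    have h1 : β ∈ t := hB1t' β hβ
    have h2 := Finset.mem_image_of_mem
      (fun β => (c * (∏ β ∈ B0, (Polynomial.X - Polynomial.C β)).eval β)⁻¹) h1
    simp only [Finset.mem_union]
    tauto
  · refine Set.Infinite.image (Subtype.val_injective.injOn) ?_
    have h1 : {u : algebraicClosure k K | (u : K) = c}.Finite := by
      refine Set.Subsingleton.finite ?_
      intro u hu v hv
      exact Subtype.ext (hu.trans hv.symm)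
    have h2 : ({0, 1} ∪ {u : algebraicClosure k K | (u : K) = c}).Finite :=
      (Set.toFinite _).union h1
    refine h2.infinite_compl.mono ?_
    intro u hu
    refine ⟨fun h => hu (Or.inl (Or.inl h)), fun h => hu (Or.inl (Or.inr h)),
      fun h => hu (Or.inr h)⟩
  · rintro _ ⟨u, ⟨hu0, hu1, huc⟩, rfl⟩
    refine ⟨fun h => hu0 (Subtype.ext h), hkR u, ?_, huc, fun β _ => ⟨?_, ?_⟩⟩
    · exact hkR u⁻¹
    · intro h
      exact hu1 (Subtype.ext (sub_eq_zero.1 h).symm)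
    · exact hkR (1 - u)⁻¹

/-- Lines that meet the boundary in at most `2 r` points have infinitely many integral points of
degree at most `r` over a ring that is finitely generated over the integers. -/
theorem conv_line2 {k K A : Type} [Field k] [Field K] [Algebra k K] [IsAlgClosed K] [CharZero K]
    [Fintype A] {n : ℕ} (V : Set (MvPolynomial (Fin (n + 1)) k))
    {F : A → MvPolynomial (Fin (n + 1)) K} {d : A → ℕ}
    (hF : ∀ a, (F a).IsHomogeneous (d a)) {C : Finset A} {r : ℕ} (hr : 0 < r)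
    {W : Submodule K (Fin (n + 1) → K)} (hW : Module.finrank K W = 2)
    (hWV : ∀ f ∈ V, ∀ v ∈ W, aeval v f = 0) (hWC : ∀ c ∈ C, ∀ v ∈ W, eval v (F c) = 0)
    (hB : {p : ℙ K (Fin (n + 1) → K) | p.rep ∈ W ∧ ∃ b, b ∉ C ∧
      eval p.rep (F b) = 0}.encard ≤ (2 * r : ℕ)) :
    ∃ T : Finset K, {p | p ∈ IPts V F d C r (Subring.closure (T : Set K)) ∧
      p.rep ∈ W}.Infinite := by
  classical
  obtain ⟨x, y, t, hli, hx, hy, hxb, htN, ht⟩ := exists_line hF hW hB
  obtain ⟨B0, hB0t, hB0⟩ := Finset.exists_subset_card_eq (s := t) (n := r) (by omega)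
  obtain ⟨B1, hB1e⟩ : ∃ B1, B1 = t \ B0 := ⟨_, rfl⟩
  have hB1 : B1.card = r := by
    rw [hB1e, Finset.card_sdiff_of_subset hB0t]
    omega
  have hB1t : ∀ β ∈ B1, β ∈ t := fun β h => by
    rw [hB1e] at h
    exact (Finset.mem_sdiff.1 h).1
  have h01 : ∀ β ∈ B0, β ∉ B1 := fun β h0 h1 => by
    rw [hB1e] at h1
    exact (Finset.mem_sdiff.1 h1).2 h0
  have htm : ∀ β ∈ t, β ∈ B0 ∨ β ∈ B1 ∨ β ∈ (∅ : Finset K) := by
    intro β hβ
    by_cases h0 : β ∈ B0
    · exact Or.inl h0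
    · right; left
      rw [hB1e]
      exact Finset.mem_sdiff.2 ⟨hβ, h0⟩
  obtain ⟨T, hT⟩ : ∃ T : Finset K, T = Finset.univ.image x ∪ (Finset.univ.image y ∪
    (t ∪ ({2⁻¹} ∪ (Finset.univ.image (fun b => (eval x (F b))⁻¹) ∪
      (t.image (fun β => ((∏ β ∈ B1, (Polynomial.X - Polynomial.C β)).eval β)⁻¹) ∪
      t.image (fun β => (1 * (∏ β ∈ B0, (Polynomial.X - Polynomial.C β)).eval β)⁻¹)))))) :=
    ⟨_, rfl⟩
  refine ⟨T, ?_⟩
  obtain ⟨R, hR⟩ : ∃ R, R = Subring.closure (T : Set K) := ⟨_, rfl⟩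
  have hTR : ∀ z ∈ T, z ∈ R := by
    intro z hz
    rw [hR]
    exact Subring.subset_closure (Finset.mem_coe.2 hz)
  rw [← hR]
  have htR : ∀ β ∈ t, β ∈ R := fun β hβ => hTR _ (by rw [hT]; simp [hβ])
  have h2R : (2 : K) ∈ R := by
    exact_mod_cast natCast_mem R 2
  have h2i : (2 : K)⁻¹ ∈ R := hTR _ (by rw [hT]; simp)
  refine conv_core (k := k) (E := ∅) (c := 1) hF hr hx hy hli
    (fun s => ⟨fun f hf => hWV f hf _ (W.add_mem (W.smul_mem _ hx) hy), fun c hc =>
      hWC c hc _ (W.add_mem (W.smul_mem _ hx) hy)⟩)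
    (fun i => hTR _ (by rw [hT]; simp)) (fun i => hTR _ (by rw [hT]; simp))
    (fun b hb => ⟨hxb b hb, hTR _ (by rw [hT]; simp)⟩)
    (fun β hβ => htR β (hB0t hβ)) (fun β hβ => htR β (hB1t β hβ))
    (fun β hβ => absurd hβ (Finset.notMem_empty β))
    (fun b hb β h0 => htm β (ht b hb β h0)) hB0 hB1 h01
    (fun β hβ => absurd hβ (Finset.notMem_empty β)) one_ne_zero
    (one_mem _) (fun β hβ => absurd hβ (Finset.notMem_empty β)) (fun β hβ => ?_)
    (fun β hβ => ?_) (U := Set.range fun j : ℕ => (2 : K) ^ (j + 1)) ?_ ?_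
  · refine hTR _ ?_
    rw [hT]
    have h1 : β ∈ t := hβ.elim (fun h => hB0t h) (fun h => absurd h (Finset.notMem_empty β))
    have h2 := Finset.mem_image_of_mem
      (fun β => ((∏ β ∈ B1, (Polynomial.X - Polynomial.C β)).eval β)⁻¹) h1
    simp only [Finset.mem_union]
    tauto
  · refine hTR _ ?_
    rw [hT]
    have h1 : β ∈ t := hB1t β hβ
    have h2 := Finset.mem_image_of_mem
      (fun β => (1 * (∏ β ∈ B0, (Polynomial.X - Polynomial.C β)).eval β)⁻¹) h1
    simp only [Finset.mem_union]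
    tauto
  · refine Set.infinite_range_of_injective ?_
    intro i j hij
    have h1 : ((2 ^ (i + 1) : ℕ) : K) = ((2 ^ (j + 1) : ℕ) : K) := by
      push_cast
      exact hij
    have h2 : (2 : ℕ) ^ (i + 1) = 2 ^ (j + 1) := by exact_mod_cast h1
    have h3 := Nat.pow_right_injective le_rfl h2
    omega
  · rintro _ ⟨j, rfl⟩
    refine ⟨pow_ne_zero _ two_ne_zero, pow_mem h2R _, ?_, ?_,
      fun β hβ => absurd hβ (Finset.notMem_empty β)⟩
    · dsimp only
      rw [← inv_pow]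
      exact pow_mem h2i _
    · intro h
      have h1 : ((2 ^ (j + 1) : ℕ) : K) = ((1 : ℕ) : K) := by
        push_cast
        exact h
      have h2 : (2 : ℕ) ^ (j + 1) = 1 := by exact_mod_cast h1
      have h3 := Nat.one_lt_two_pow (n := j + 1) (by omega)
      omega

end Pool.Agent.Y735.LB
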