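import Pool.Agent.Y735.LB.Heights2
import Pool.Agent.Y735.LB.Limit
import Pool.Agent.Y735.R.FinR

/-!
Finiteness of the integral points of bounded degree.
-/

set_option autoImplicit false

open MvPolynomial FF Pool.Agent.W603.LV Pool.Agent.W603.PV Pool.Agent.W602.RG
open Pool.Agent.TH145 Pool.Agent.TH145.GH Pool.Agent.TH145.GC
open Pool.Agent.TH145.MG (DimLE)
open scoped IntermediateField

namespace Pool.Agent.Y735.LB

theorem isIntegral_of_monic {R Ω : Type} [CommRing R] [CommRing Ω] [Algebra R Ω] {w : Ω} {N : ℕ}
    (c : ℕ → R) (h : w ^ N + ∑ i ∈ Finset.range N, algebraMap R Ω (c i) * w ^ i = 0) :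
    IsIntegral R w := by
  refine ⟨Polynomial.X ^ N + ∑ i ∈ Finset.range N, Polynomial.C (c i) * Polynomial.X ^ i,
    Polynomial.monic_X_pow_add ?_, ?_⟩
  · refine Polynomial.mem_degreeLT.1 (Submodule.sum_mem _ fun i hi => Polynomial.mem_degreeLT.2
      (lt_of_le_of_lt (Polynomial.degree_C_mul_X_pow_le _ _) ?_))
    exact_mod_cast Finset.mem_range.1 hi
  · rw [Polynomial.eval₂_add, Polynomial.eval₂_X_pow, Polynomial.eval₂_finsetSum]
    refine Eq.trans ?_ h
    congr 1
    refine Finset.sum_congr rfl fun i _ => ?_
    rw [Polynomial.eval₂_mul, Polynomial.eval₂_C, Polynomial.eval₂_X_pow]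

variable {k0 K ι : Type} [Field k0] [Field K] [Algebra k0 K] [IsAlgClosed K] [CharZero K]
  {y : ι → K} (E : IntermediateField (IntermediateField.adjoin k0 (Set.range y)) K)

omit [IsAlgClosed K] [CharZero K] in
/-- The coefficients of the minimal polynomial of an integral element are integral. -/
theorem coeff_int {T : Finset K} (hT : ∀ t ∈ T, t ∈ E) {s : K}
    (hs : IsIntegral (Subring.closure (Set.range (algebraMap k0 K) ∪ (T : Set K))) s) (i : ℕ) :
    IsIntegral E s ∧ IsIntegral (Subring.closure (Set.range (algebraMap k0 K) ∪ (T : Set K)))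
      ((minpoly E s).coeff i : K) := by
  obtain ⟨R, hR⟩ : ∃ R, R = Subring.closure (Set.range (algebraMap k0 K) ∪ (T : Set K)) :=
    ⟨_, rfl⟩
  have hRE : R ≤ E.toSubfield.toSubring := by
    rw [hR, Subring.closure_le]
    rintro w (⟨r, rfl⟩ | hw)
    · exact k0_mem E r
    · exact hT w hw
  rw [← hR] at hs ⊢
  let iE : R →+* E :=
    { toFun := fun r => ⟨r, hRE r.2⟩
      map_one' := rfl
      map_mul' := fun _ _ => rfl
      map_zero' := rfl
      map_add' := fun _ _ => rfl }
  let _ : Algebra R E := iE.toAlgebra
  have hst : IsScalarTower R E K := IsScalarTower.of_algebraMap_eq fun _ => rfl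
  have hE : IsIntegral E s := hs.tower_top
  refine ⟨hE, ?_⟩
  obtain ⟨p, hp, hp0⟩ := hs
  have hdvd : minpoly E s ∣ p.map (algebraMap R E) := by
    refine minpoly.dvd E s ?_
    rw [Polynomial.aeval_map_algebraMap]
    exact hp0
  have h1 := Polynomial.isIntegral_coeff_of_dvd p (minpoly E s) hp (minpoly.monic hE) hdvd i
  exact h1.map (IsScalarTower.toAlgHom R E K)

/-- Finiteness of the integral points of bounded degree. -/
theorem fin_all_log (hI : S_INEQ) (hL : S_LIM) {n m r : ℕ} {A : Type} [Fintype A] {dg : A → ℕ}
    [IsAlgClosed k0] [Finite ι] (hy : IsTranscendenceBasis k0 y)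
    [FiniteDimensional (IntermediateField.adjoin k0 (Set.range y)) E]
    [IsGalois (IntermediateField.adjoin k0 (Set.range y)) E]
    {F : A → MvPolynomial (Fin (n + 1)) E.toSubfield}
    {DE : A → (Fin (n + 1) →₀ ℕ) → E.toSubfield → E.toSubfield}
    (hG : GC.Gen F dg DE)
    (D : A → (Fin (n + 1) →₀ ℕ) → Derivation ℤ K K)
    (hDE : ∀ a I (x : E.toSubfield), D a I x = (DE a I x : K))
    (hDk : ∀ a I (r : k0), D a I (algebraMap k0 K r) = 0)
    (hDy : ∀ a I j, ∃ r : k0, D a I (y j) = algebraMap k0 K r) (C : Finset A)
    (hd : 2 * m + 2 * r ≤ ∑ a, dg a + C.card) (V : Set (MvPolynomial (Fin (n + 1)) k0))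
    (hV : DimLE k0 V m) (l0 : Fin (n + 1)) (T : Finset K) (hT : ∀ t ∈ T, t ∈ E) :
    {x : Fin (n + 1) → K | Cond E F dg V C l0 T x ∧
      ∃ LE : IntermediateField E K, FiniteDimensional E LE ∧ Module.finrank E LE ≤ r ∧
        ∀ j, x j ∈ LE}.Finite := by
  classical
  by_contra hinf
  let f := Set.Infinite.natEmbedding _ hinf
  obtain ⟨x, hx⟩ : ∃ x : ℕ → Fin (n + 1) → K, ∀ n, x n = (f n).1 := ⟨_, fun _ => rfl⟩
  have hxinj : Function.Injective x := by
    intro a b hab
    rw [hx, hx] at hab
    exact f.injective (Subtype.ext hab)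
  have hxc : ∀ n, Cond E F dg V C l0 T (x n) := fun n => by rw [hx]; exact (f n).2.1
  have hxL : ∀ n, ∃ LE : IntermediateField E K, FiniteDimensional E LE ∧
      Module.finrank E LE ≤ r ∧ ∀ j, x n j ∈ LE := fun n => by
    rw [hx]; exact (f n).2.2
  choose LE hfd hrk hmem using hxL
  choose B hB using fun i => heights_log E hy.1 hG D hDE hDk hDy C hd V hV l0 T hT i
  have hB' := fun n i => hB i (x n) (hxc n) (LE n) (hfd n) (hrk n) (hmem n)
  -- the degrees, also if there are no variables
  have hdeg0 : ∀ n (s : K), s ∈ LE n → IsIntegral E s ∧ (minpoly E s).natDegree ≤ r := by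
    intro n s h1
    have := hfd n
    obtain ⟨u, hu⟩ : ∃ u : LE n, u = ⟨_, h1⟩ := ⟨_, rfl⟩
    have h2 : IsIntegral E u := Algebra.IsIntegral.isIntegral _
    have h3 : minpoly E s = minpoly E u := by
      rw [← minpoly.algHom_eq (LE n).val (LE n).val.injective u, hu]
      rfl
    refine ⟨?_, ?_⟩
    · have := h2.map (LE n).val
      rwa [hu] at this
    · rw [h3]
      exact (minpoly.natDegree_le u).trans (hrk n)
  have hdeg : ∀ n (c : Fin (_ + 1) → ℕ), IsIntegral E (∑ j, (c j : K) * x n j) ∧
      (minpoly E (∑ j, (c j : K) * x n j)).natDegree ≤ r := fun n c =>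
    hdeg0 n _ (sum_mem fun j _ => mul_mem (natCast_mem _ (c j)) (hmem n j))
  have hdegs : ∀ n a l, (minpoly E (x n l ^ dg a /
      eval (x n) (map E.toSubfield.subtype (F a)))).natDegree ≤ r := by
    intro n a l
    refine (hdeg0 n _ (div_mem (pow_mem (hmem n l) _) ?_)).2
    obtain ⟨w, hw1, -⟩ := eval_emb E (LE n) (LE n).val (fun j => ⟨x n j, hmem n j⟩) (F a)
    have h1 : (fun j => (((fun j => ⟨x n j, hmem n j⟩ : Fin _ → LE n) j : LE n) : K)) = x n := rfl
    rw [h1] at hw1
    rw [← hw1]
    exact w.2
  have hz : ∀ (c : Fin (_ + 1) → ℕ) (i : ℕ), Om.mk (fun n =>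
      ((minpoly E (∑ j, (c j : K) * x n j)).coeff i : K)) ∈
        OE k0 ((E.toSubfield : Subfield K) : Set K) := fun c i =>
    lim_mem E hy (fun n => (minpoly E (∑ j, (c j : K) * x n j)).coeff i) B
      fun n i' => ((hB' n i').1 c).2 i
  -- the values of the forms
  have hev : ∀ a, eval (fun j => Om.mk fun n => x n j)
      (map ((cst K).comp E.toSubfield.subtype) (F a)) =
      Om.mk (fun n => eval (x n) (map E.toSubfield.subtype (F a))) := fun a => eval_mk (F a) x
  have hevn : ∀ a, a ∉ C → Om.mk (fun n => eval (x n) (map E.toSubfield.subtype (F a))) ≠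
      (0 : Om K) := by
    intro a ha h0
    have h1 : Om.mk (fun n => eval (x n) (map E.toSubfield.subtype (F a))) =
      Om.mk (fun _ => (0 : K)) := h0
    obtain ⟨n, hn⟩ := (Om.mk_eq.1 h1).exists
    exact (hxc n).2.2.2.1 a ha hn
  have hacl := limit_alg_log hI (r := r) E.toSubfield (fun r => k0_mem E r) hG D hDE hDk C hd V hV
    (fun j => Om.mk fun n => x n j) (l0 := l0) (by
      have h1 : (fun n => x n l0) = fun _ => 1 := funext fun n => (hxc n).1
      rw [h1]; rfl) (fun f hf => by
      have h1 := Pool.Agent.TH145.MG.eval_mk x (map (algebraMap k0 K) f)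
      have h2 : (fun n => eval (x n) (map (algebraMap k0 K) f)) = fun _ => 0 := by
        funext n
        rw [eval_map]
        exact (hxc n).2.1 f hf
      rw [h2] at h1
      have h3 : eval₂ (cst K) (fun j => Om.mk fun n => x n j) (map (algebraMap k0 K) f) = 0 := h1
      rwa [eval₂_map] at h3) (fun a ha => by
      rw [hev]
      have h2 : (fun n => eval (x n) (map E.toSubfield.subtype (F a))) = fun _ => 0 :=
        funext fun n => (hxc n).2.2.1 a ha
      rw [h2]; rfl) (fun a ha => by
      rw [hev]
      exact hevn a ha) (fun a ha l => by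
      rw [hev]
      obtain ⟨s, hs⟩ : ∃ s : ℕ → K, ∀ n, s n = x n l ^ dg a /
        eval (x n) (map E.toSubfield.subtype (F a)) := ⟨_, fun _ => rfl⟩
      have hs1 : (Om.mk fun n => x n l) ^ dg a /
          Om.mk (fun n => eval (x n) (map E.toSubfield.subtype (F a))) = Om.mk s := by
        rw [div_eq_iff (hevn a ha)]
        have h1 : MF.mkHom K (fun n => x n l) ^ dg a = MF.mkHom K s *
            MF.mkHom K (fun n => eval (x n) (map E.toSubfield.subtype (F a))) := by
          rw [← map_pow, ← map_mul]
          congr 1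
          funext n
          rw [Pi.pow_apply, Pi.mul_apply, hs, div_mul_cancel₀ _ ((hxc n).2.2.2.1 a ha)]
        exact h1
      rw [hs1]
      have hsi : ∀ n, IsIntegral (Subring.closure (Set.range (algebraMap k0 K) ∪ (T : Set K)))
          (s n) := fun n => by
        rw [hs]
        exact (hxc n).2.2.2.2 a ha l
      have hsd : ∀ n, (minpoly E (s n)).natDegree ≤ r := fun n => by
        rw [hs]
        exact hdegs n a l
      obtain ⟨g, hg⟩ : ∃ g : ℕ → Polynomial E, ∀ n, g n =
        Polynomial.X ^ (r - (minpoly E (s n)).natDegree) * minpoly E (s n) := ⟨_, fun _ => rfl⟩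
      have hg1 : ∀ n i, (g n).coeff i = if r - (minpoly E (s n)).natDegree ≤ i then
          (minpoly E (s n)).coeff (i - (r - (minpoly E (s n)).natDegree)) else 0 := fun n i => by
        rw [hg, Polynomial.coeff_X_pow_mul']
      have hgi : ∀ n i, IsIntegral (Subring.closure (Set.range (algebraMap k0 K) ∪ (T : Set K)))
          ((g n).coeff i : K) := by
        intro n i
        rw [hg1]
        split_ifs
        · exact (coeff_int E hT (hsi n) _).2
        · exact isIntegral_zero
      have hgB : ∀ n i i', hgt (kap k0 y i')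
          (⟨((g n).coeff i : K), subset_LL y _ i' ((g n).coeff i).2⟩ :
          LL k0 y (E : Set K) i') ≤ B i' := by
        intro n i i'
        have hFF : IsFF (kap k0 y i') (LL k0 y (E : Set K) i') := LL_ff E hy.1 i'
        have h1 := ((hB' n i').2 a ha l).2
        have h2 : ∀ c : E, c = (minpoly E (s n)).coeff (i - (r - (minpoly E (s n)).natDegree)) ∨
            c = 0 → hgt (kap k0 y i') (⟨(c : K), subset_LL y _ i' c.2⟩ :
              LL k0 y (E : Set K) i') ≤ B i' := by
          rintro c (rfl | rfl)
          · have h3 := h1 (i - (r - (minpoly E (s n)).natDegree))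
            simp only [← hs n] at h3
            exact h3
          · have h3 := h1 0
            refine le_trans ?_ ((hgt_nonneg _).trans h3)
            have h4 : (⟨((0 : E) : K), subset_LL y _ i' (0 : E).2⟩ :
              LL k0 y (E : Set K) i') = 0 := rfl
            rw [h4, hgt_zero]
        refine h2 _ ?_
        rw [hg1]
        split_ifs
        · exact Or.inl rfl
        · exact Or.inr rfl
      have hlim : ∀ i, Om.mk (fun n => ((g n).coeff i : K)) ∈
          Subring.closure (Set.range (mapOm k0 K) ∪ cst K '' ((E.toSubfield : Subfield K) : Set K)) := fun i =>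
        hL k0 K ι y E hy T (fun n => (g n).coeff i) (fun n => hgi n i) B
          (fun n i' => hgB n i i')
      refine isIntegral_of_monic (N := r) (fun i => (⟨_, hlim i⟩ :
        Subring.closure (Set.range (mapOm k0 K) ∪ cst K '' ((E.toSubfield : Subfield K) : Set K)))) ?_
      have h1 : ∀ i, algebraMap (Subring.closure (Set.range (mapOm k0 K) ∪
          cst K '' ((E.toSubfield : Subfield K) : Set K))) (Om K) ⟨_, hlim i⟩ * Om.mk s ^ i =
          MF.mkHom K (fun n => ((g n).coeff i : K) * s n ^ i) := by
        intro i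
        have h2 : MF.mkHom K (fun n => ((g n).coeff i : K)) * MF.mkHom K s ^ i =
            MF.mkHom K (fun n => ((g n).coeff i : K) * s n ^ i) := by
          rw [← map_pow, ← map_mul]
          rfl
        exact h2
      have h2 : Om.mk s ^ r = MF.mkHom K (fun n => s n ^ r) := by
        have h3 : MF.mkHom K s ^ r = MF.mkHom K (fun n => s n ^ r) := by
          rw [← map_pow]
          rfl
        exact h3
      rw [Finset.sum_congr rfl fun i _ => h1 i, ← map_sum, h2, ← map_add]
      have h3 : (fun n => s n ^ r) + (∑ i ∈ Finset.range r, fun n =>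
          ((g n).coeff i : K) * s n ^ i) = 0 := by
        funext n
        rw [Pi.add_apply, Finset.sum_apply, Pi.zero_apply]
        have hi : IsIntegral E (s n) := (coeff_int E hT (hsi n) 0).1
        have hgm : (g n).Monic := by
          rw [hg]
          exact (Polynomial.monic_X_pow _).mul (minpoly.monic hi)
        have hgd : (g n).natDegree = r := by
          rw [hg, (Polynomial.monic_X_pow _).natDegree_mul (minpoly.monic hi),
            Polynomial.natDegree_X_pow]
          have := hsd n
          omega
        have hg0 : Polynomial.aeval (s n) (g n) = 0 := by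
          rw [hg, map_mul, minpoly.aeval, mul_zero]
        rw [Polynomial.aeval_eq_sum_range, hgd, Finset.sum_range_succ] at hg0
        have h5 := hgm.coeff_natDegree
        rw [hgd] at h5
        rw [h5, one_smul] at hg0
        rw [← hg0, add_comm]
        congr 1
      rw [h3, map_zero]) (fun c => by
      obtain ⟨w, hw⟩ : ∃ w : ℕ → OE k0 ((E.toSubfield : Subfield K) : Set K), ∀ i, (w i : Om K) =
        Om.mk (fun n => ((minpoly E (∑ j, (c j : K) * x n j)).coeff i : K)) :=
        ⟨fun i => ⟨_, hz c i⟩, fun _ => rfl⟩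
      refine ⟨∑ i ∈ Finset.range (r + 1), Polynomial.monomial i (w i), ?_, ?_, ?_⟩
      · intro h0
        have h1 : ∀ i ∈ Finset.range (r + 1), ∀ᶠ n in (Filter.hyperfilter ℕ : Filter ℕ),
            ((minpoly E (∑ j, (c j : K) * x n j)).coeff i : K) = 0 := by
          intro i hi
          have h2 := congrArg (fun p => Polynomial.coeff p i) h0
          simp only [Polynomial.finsetSum_coeff, Polynomial.coeff_monomial, Finset.sum_ite_eq',
            Polynomial.coeff_zero] at h2
          rw [if_pos hi] at h2
          have h3 := hw i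
          rw [h2] at h3
          have h4 : Om.mk (fun n => ((minpoly E (∑ j, (c j : K) * x n j)).coeff i : K)) =
              Om.mk fun _ => 0 := h3.symm
          exact Om.mk_eq.1 h4
        have h2 : ∀ᶠ n in (Filter.hyperfilter ℕ : Filter ℕ), ∀ i ∈ Finset.range (r + 1),
            ((minpoly E (∑ j, (c j : K) * x n j)).coeff i : K) = 0 :=
          (Filter.eventually_all_finset _).2 h1
        obtain ⟨n, hn⟩ := h2.exists
        have h3 := hn _ (Finset.mem_range.2 (Nat.lt_succ_of_le (hdeg n c).2))
        have h4 := (minpoly.monic (hdeg n c).1).coeff_natDegree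
        rw [h4] at h3
        exact one_ne_zero h3
      · refine Polynomial.natDegree_sum_le_of_forall_le _ _ fun i hi => ?_
        exact (Polynomial.natDegree_monomial_le _).trans
          (Nat.le_of_lt_succ (Finset.mem_range.1 hi))
      · rw [map_sum]
        have h1 : ∀ i, Polynomial.aeval (∑ j, (c j : Om K) * Om.mk fun n => x n j)
            (Polynomial.monomial i (w i)) = MF.mkHom K (fun n =>
              ((minpoly E (∑ j, (c j : K) * x n j)).coeff i : K) *
                (∑ j, (c j : K) * x n j) ^ i) := by
          intro i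
          rw [Polynomial.aeval_monomial]
          have h2 : algebraMap (OE k0 ((E.toSubfield : Subfield K) : Set K)) (Om K) (w i) =
              MF.mkHom K (fun n => ((minpoly E (∑ j, (c j : K) * x n j)).coeff i : K)) := hw i
          have h3 : (∑ j, (c j : Om K) * Om.mk fun n => x n j) =
              MF.mkHom K (fun n => ∑ j, (c j : K) * x n j) := by
            have h4 : (fun n => ∑ j, (c j : K) * x n j) =
                ∑ j, (c j : ℕ → K) * fun n => x n j := by
              funext n
              rw [Finset.sum_apply]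
              rfl
            rw [h4, map_sum]
            exact Finset.sum_congr rfl fun j _ => by rw [map_mul, map_natCast]; rfl
          rw [h2, h3, ← map_pow, ← map_mul]
          rfl
        rw [Finset.sum_congr rfl fun i _ => h1 i, ← map_sum]
        have h2 : (∑ i ∈ Finset.range (r + 1), fun n =>
              ((minpoly E (∑ j, (c j : K) * x n j)).coeff i : K) *
                (∑ j, (c j : K) * x n j) ^ i) = 0 := by
          funext n
          rw [Finset.sum_apply, Pi.zero_apply]
          have h3 := minpoly.aeval E (∑ j, (c j : K) * x n j)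
          rw [Polynomial.aeval_eq_sum_range' (Nat.lt_succ_of_le (hdeg n c).2)] at h3
          rw [← h3]
          exact Finset.sum_congr rfl fun i _ => by rw [Algebra.smul_def]; rfl
        rw [h2, map_zero])
  choose a ha using fun j => eventually_const (hacl j)
  exact not_all_const hxinj a ha

end Pool.Agent.Y735.LB
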