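import Pool.Agent.TH145.GH.Ineq
import Pool.Agent.TH812.GV.Ineq
import Pool.Agent.Y735.R.Trace

/-!
Integral elements and values of forms at the places of a function field.
-/

set_option autoImplicit false

open MvPolynomial FF Pool.Agent.W603.LV Pool.Agent.W603.PV Pool.Agent.TH145.GH

namespace Pool.Agent.Y735.LB

/-- The equation of an integral element. -/
theorem exists_monic {R Ω : Type} [CommRing R] [CommRing Ω] [Algebra R Ω] {w : Ω}
    (h : IsIntegral R w) : ∃ (N : ℕ) (c : ℕ → R),
      w ^ N + ∑ i ∈ Finset.range N, algebraMap R Ω (c i) * w ^ i = 0 := by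
  obtain ⟨p, hp, h0⟩ := h
  refine ⟨p.natDegree, p.coeff, ?_⟩
  rw [Polynomial.eval₂_eq_sum_range, Finset.sum_range_succ, hp.coeff_natDegree, map_one,
    one_mul] at h0
  rw [← h0, add_comm]

variable {k L : Type} [Field k] [Field L] [Algebra k L]

/-- Integral elements are regular. -/
theorem ge_of_monic (P : Place k L) {w : L} {N : ℕ} {c : ℕ → L}
    (hc : ∀ i ∈ Finset.range N, Ge P 0 (c i))
    (h : w ^ N + ∑ i ∈ Finset.range N, c i * w ^ i = 0) : Ge P 0 w := by
  by_contra hcon
  have hw : w ≠ 0 := fun h0 => hcon (Or.inl h0)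
  have hlt : P.ord w < 0 := by
    by_contra h0
    exact hcon (Or.inr (not_lt.1 h0))
  have hN : N ≠ 0 := by
    rintro rfl
    rw [pow_zero, Finset.range_zero, Finset.sum_empty, add_zero] at h
    exact one_ne_zero h
  have hz : ∀ i : ℕ, Ge P (i * P.ord w) (w ^ i) := fun i => by
    right
    rw [P.ord_pow]
  have h1 : Ge P ((N - 1 : ℤ) * P.ord w) (∑ i ∈ Finset.range N, c i * w ^ i) := by
    refine Ge.sum _ _ fun i hi => ?_
    have h2 := (hc i hi).mul (hz i)
    refine h2.mono ?_
    have h3 : (i : ℤ) ≤ N - 1 := by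
      have := Finset.mem_range.1 hi
      omega
    rw [zero_add]
    nlinarith
  have h2 : w ^ N = -∑ i ∈ Finset.range N, c i * w ^ i := eq_neg_of_add_eq_zero_left h
  have h3 : Ge P ((N - 1 : ℤ) * P.ord w) (w ^ N) := by
    rw [h2]
    exact h1.neg
  have h4 := h3.resolve_left (pow_ne_zero _ hw)
  rw [P.ord_pow] at h4
  nlinarith

theorem le_of_int (P : Place k L) {n d : ℕ} {x : Fin (n + 1) → L} (hx0 : x ≠ 0) {w : L}
    (hw : w ≠ 0) (h : ∀ j, Ge P 0 (x j ^ d / w)) : P.ord w ≤ d * pord P x := by
  obtain ⟨j, hj, hjP⟩ := exists_pord P (Function.ne_iff.1 hx0)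
  have h2 := (h j).resolve_left (div_ne_zero (pow_ne_zero _ hj) hw)
  rw [P.ord_div (pow_ne_zero _ hj) hw, P.ord_pow, hjP] at h2
  linarith

/-- The order of the value of a form. -/
theorem ge_eval_pord (P : Place k L) {n d : ℕ} {F : MvPolynomial (Fin (n + 1)) L}
    (hF : F.IsHomogeneous d) {x : Fin (n + 1) → L} {c : ℤ} (hc : ∀ u, Ge P (-c) (F.coeff u)) :
    Ge P (d * pord P x - c) (eval x F) := by
  classical
  rw [eval_eq']
  refine Ge.sum _ _ fun u hu => ?_
  have hmon : ∀ s : Finset (Fin (n + 1)), Ge P ((∑ i ∈ s, (u i : ℤ)) * pord P x)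
      (∏ i ∈ s, x i ^ u i) := by
    intro s
    induction s using Finset.induction_on with
    | empty =>
      rw [Finset.sum_empty, Finset.prod_empty, zero_mul]
      exact Ge.one
    | insert i s hi ih =>
      rw [Finset.sum_insert hi, Finset.prod_insert hi, add_mul]
      refine Ge.mul ?_ ih
      by_cases h0 : x i = 0
      · by_cases hu0 : u i = 0
        · rw [hu0, pow_zero]
          simpa using (Ge.one : Ge P 0 (1 : L))
        · left
          rw [h0, zero_pow hu0]
      · right
        rw [P.ord_pow]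
        exact mul_le_mul_of_nonneg_left (pord_le P h0) (by positivity)
  have h1 := (hc u).mul (hmon Finset.univ)
  refine h1.mono (le_of_eq ?_)
  have h2 : (∑ i, (u i : ℤ)) = d := by
    have h3 := hF (mem_support_iff.1 hu)
    rw [Finsupp.weight_apply, Finsupp.sum_fintype _ _ (by simp)] at h3
    rw [← h3]
    push_cast
    exact Finset.sum_congr rfl fun i _ => by simp
  rw [h2]
  ring

end Pool.Agent.Y735.LB
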