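import Pool.Agent.Y735.LB.Ineq
import Pool.Agent.Y735.LB.Small
import Pool.Agent.Y735.LB.Conj2

/-!
Heights of the integral points of bounded degree.
-/

set_option autoImplicit false

open MvPolynomial FF Pool.Agent.W603.LV Pool.Agent.W603.PV Pool.Agent.W602.RG
open Pool.Agent.TH145 Pool.Agent.TH145.GH Pool.Agent.TH145.GC
open Pool.Agent.TH145.MG (DimLE)
open Pool.Agent.Y735.R (disc_le_pht adjoin_top finrank_adjoin_le hgt_comb_le)

namespace Pool.Agent.Y735.LB

section

variable {k0 κ F L : Type} [Field k0] [Field κ] [Field F] [Field L] [IsAlgClosed κ]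
    [CharZero κ] [Algebra κ F] [IsFF κ F] [Algebra κ L] [Algebra F L] [IsScalarTower κ F L]
    [FiniteDimensional F L] [IsFF κ L] (ψ : k0 →+* F) {n m r : ℕ} {A : Type} [Fintype A]
    {dg : A → ℕ} {G : A → MvPolynomial (Fin (n + 1)) F}
    {D : A → (Fin (n + 1) →₀ ℕ) → Derivation ℤ F F} {q : Place κ F → ℤ}
    (hdat : GC.Data κ G dg D q) (hDk : ∀ a I (r : k0), D a I (ψ r) = 0)
    (hSem : ∀ a I, Sem κ (D a I)) (V : Set (MvPolynomial (Fin (n + 1)) k0)) (hV : DimLE k0 V m)
    {x : Fin (n + 1) → L} {l0 : Fin (n + 1)} (hl : x l0 = 1)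
    (hxV : ∀ f ∈ V, eval₂ ((algebraMap F L).comp ψ) x f = 0) (C : Finset A)
    (hd : 2 * m + 2 * r ≤ ∑ a, dg a + C.card) (hr : Module.finrank F L ≤ r)
    (hgen : IntermediateField.adjoin F (Set.range x) = ⊤)
    (hxC : ∀ a ∈ C, eval x (map (algebraMap F L) (G a)) = 0)
    (hxF : ∀ a, a ∉ C → eval x (map (algebraMap F L) (G a)) ≠ 0)

include hl hd hr hgen in
theorem pht_aux (B0 : ℤ)
    (h1 : (∑ a, (dg a : ℤ) + C.card - 2 * m - 1) * pht κ x ≤ disc κ F L + B0) :
    pht κ x ≤ B0 := by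
  have h2 := disc_le_pht (k := κ) (F := F) x hl hgen
  have h3 : 0 ≤ pht κ x := by
    have hl0 : x l0 ≠ 0 := by rw [hl]; exact one_ne_zero
    exact (hgt_nonneg _).trans (Pool.Agent.W603.CX.hgt_le_pht (k := κ) x hl0 hl0)
  have h4 : (1 : ℤ) ≤ (∑ a, (dg a : ℤ) + C.card - 2 * m - 1) -
      (2 * Module.finrank F L - 2) := by
    have h5 : ((2 * m + 2 * r : ℕ) : ℤ) ≤ ((∑ a, dg a + C.card : ℕ) : ℤ) := by exact_mod_cast hd
    have h6 : (Module.finrank F L : ℤ) ≤ r := by exact_mod_cast hr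
    push_cast at h5
    linarith
  nlinarith

include hdat hDk hSem hV hl hxV hd hr hgen hxC hxF in
/-- The height of a point which is integral outside of a finite set of places. -/
theorem pht_cnt (S : Set (Place κ L)) (hS : S.Finite)
    (hint : ∀ P, P ∉ S → ∀ a, a ∉ C →
      P.ord (eval x (map (algebraMap F L) (G a))) ≤ dg a * pord P x) :
    pht κ x ≤ (Fintype.card A + m + 3) *
      ∑ᶠ P : Place κ L, (ram F P : ℤ) * q (under F P) + S.ncard := by
  have hx0 : x ≠ 0 := by
    rintro rfl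
    exact zero_ne_one hl
  have h1 := ineq_cnt ψ hdat hDk hSem V hV hx0 hxV C hxC hxF S hS hint
  exact pht_aux hl C hd hr hgen _ (by linarith)

include hdat hDk hSem hV hl hxV hd hr hgen hxC hxF in
theorem pht_log (hI : S_INEQ)
    (hreg : ∀ P : Place κ L, (∀ a, a ∉ C →
      P.ord (eval x (map (algebraMap F L) (G a))) ≤ dg a * pord P x) ∨
      ∃ π : F, (under F P).ord π ≠ 0 ∧ ∀ a I, D a I π = 0) :
    pht κ x ≤ (Fintype.card A + m + 3) *
      ∑ᶠ P : Place κ L, (ram F P : ℤ) * q (under F P) := by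
  have hx0 : x ≠ 0 := by
    rintro rfl
    exact zero_ne_one hl
  have h1 := ineq_log ψ hdat hDk hSem V hV hx0 hxV C hxC hxF hI hreg
  exact pht_aux hl C hd hr hgen _ (by linarith)

end

/-- Heights of values in extensions of bounded degree. -/
theorem hgt_eval_ext {κ F : Type} [Field κ] [Field F] [Algebra κ F] [IsAlgClosed κ] [CharZero κ]
    [IsFF κ F] {n : ℕ} (r : ℕ) (H : ℤ) (p : MvPolynomial (Fin (n + 1)) F) :
    ∃ B : ℤ, ∀ (L : Type) [Field L] [Algebra κ L] [Algebra F L] [IsScalarTower κ F L]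
      [FiniteDimensional F L] [IsFF κ L], Module.finrank F L ≤ r → ∀ x : Fin (n + 1) → L,
      (∀ j, hgt κ (x j) ≤ H) → hgt κ (eval x (map (algebraMap F L) p)) ≤ B := by
  induction p using MvPolynomial.induction_on with
  | C a =>
    refine ⟨r * hgt κ a, fun L _ _ _ _ _ _ hr x _ => ?_⟩
    rw [map_C, eval_C, hgt_algebraMap]
    exact mul_le_mul_of_nonneg_right (by exact_mod_cast hr) (hgt_nonneg _)
  | add p q hp hq =>
    obtain ⟨B1, h1⟩ := hp
    obtain ⟨B2, h2⟩ := hq
    refine ⟨B1 + B2, fun L _ _ _ _ _ _ hr x hx => ?_⟩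
    rw [map_add, map_add]
    exact (Pool.Agent.TH145.MW.hgt_add_le (k := κ) _ _).trans
      (add_le_add (h1 L hr x hx) (h2 L hr x hx))
  | mul_X p i hp =>
    obtain ⟨B1, h1⟩ := hp
    refine ⟨B1 + H, fun L _ _ _ _ _ _ hr x hx => ?_⟩
    rw [map_mul, map_mul, map_X, eval_X]
    exact (Pool.Agent.TH145.MW.hgt_mul_le (k := κ) _ _).trans (add_le_add (h1 L hr x hx) (hx i))

variable {k0 K ι : Type} [Field k0] [Field K] [Algebra k0 K] [IsAlgClosed K] [CharZero K]
  {y : ι → K} (E : IntermediateField (IntermediateField.adjoin k0 (Set.range y)) K)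

/-- The conditions on the point. -/
def Cond {n : ℕ} {A : Type} (F : A → MvPolynomial (Fin (n + 1)) E.toSubfield) (dg : A → ℕ)
    (V : Set (MvPolynomial (Fin (n + 1)) k0)) (C : Finset A) (l0 : Fin (n + 1)) (T : Finset K)
    (x : Fin (n + 1) → K) : Prop :=
  x l0 = 1 ∧ (∀ f ∈ V, eval₂ (algebraMap k0 K) x f = 0) ∧
    (∀ a ∈ C, eval x (map E.toSubfield.subtype (F a)) = 0) ∧
    (∀ a, a ∉ C → eval x (map E.toSubfield.subtype (F a)) ≠ 0) ∧
    ∀ a, a ∉ C → ∀ j, IsIntegral (Subring.closure (Set.range (algebraMap k0 K) ∪ (T : Set K)))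
      (x j ^ dg a / eval x (map E.toSubfield.subtype (F a)))

theorem closure_le {T : Finset K} (hT : ∀ t ∈ T, t ∈ E) :
    Subring.closure (Set.range (algebraMap k0 K) ∪ (T : Set K)) ≤ E.toSubfield.toSubring := by
  rw [Subring.closure_le]
  rintro w (⟨r, rfl⟩ | hw)
  · exact k0_mem E r
  · exact hT w hw

/-- Conjugates of values. -/
theorem eval_emb {n : ℕ} (L : IntermediateField E K) (σ : L →ₐ[E] K) (x : Fin (n + 1) → L)
    (p : MvPolynomial (Fin (n + 1)) E.toSubfield) : ∃ w : L,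
      (w : K) = eval (fun j => (x j : K)) (map E.toSubfield.subtype p) ∧
      σ w = eval (fun j => σ (x j)) (map E.toSubfield.subtype p) := by
  let φ : E.toSubfield →+* L := algebraMap E L
  have hφ : (algebraMap L K).comp φ = E.toSubfield.subtype := by
    ext r
    rfl
  have hφ' : (σ : L →+* K).comp φ = E.toSubfield.subtype := by
    ext r
    exact σ.commutes _
  refine ⟨eval₂ φ x p, ?_, ?_⟩
  · have h4 := hom_eval₂ p φ (algebraMap L K) x
    rw [hφ] at h4
    rw [eval_map]
    exact h4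
  · have h7 := hom_eval₂ p φ (σ : L →+* K) x
    rw [hφ'] at h7
    rw [eval_map]
    exact h7

/-- The conditions are preserved by embeddings. -/
theorem Cond.emb {n : ℕ} {A : Type} {F : A → MvPolynomial (Fin (n + 1)) E.toSubfield}
    {dg : A → ℕ} {V : Set (MvPolynomial (Fin (n + 1)) k0)} {C : Finset A} {l0 : Fin (n + 1)}
    {T : Finset K} (hT : ∀ t ∈ T, t ∈ E) (L : IntermediateField E K)
    (σ : L →ₐ[E] K) (x : Fin (n + 1) → L) (h : Cond E F dg V C l0 T fun j => (x j : K)) :
    Cond E F dg V C l0 T fun j => σ (x j) := by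
  obtain ⟨h1, h2, h3, h4, h5⟩ := h
  obtain ⟨R, hR⟩ : ∃ R, R = Subring.closure (Set.range (algebraMap k0 K) ∪ (T : Set K)) :=
    ⟨_, rfl⟩
  have hRE : R ≤ E.toSubfield.toSubring := hR ▸ closure_le E hT
  refine ⟨?_, fun f hf => ?_, fun a ha => ?_, fun a ha => ?_, fun a ha j => ?_⟩
  · have h4 : x l0 = 1 := Subtype.ext h1
    change σ (x l0) = 1
    rw [h4, map_one]
  · let ψ : k0 →+* L := (algebraMap E L).comp
      ((algebraMap k0 K).codRestrict E.toSubfield (fun r => k0_mem E r))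
    have hψ : (algebraMap L K).comp ψ = algebraMap k0 K := by
      ext r
      rfl
    have hψ' : (σ : L →+* K).comp ψ = algebraMap k0 K := by
      ext r
      exact σ.commutes _
    have h4 := hom_eval₂ f ψ (algebraMap L K) x
    rw [hψ] at h4
    have h5 := h2 f hf
    have h6 : eval₂ ψ x f = 0 := by
      apply (algebraMap L K).injective
      rw [h4, map_zero]
      exact h5
    have h7 := hom_eval₂ f ψ (σ : L →+* K) x
    rw [hψ', h6, map_zero] at h7
    exact h7.symm
  · obtain ⟨w, hw1, hw2⟩ := eval_emb E L σ x (F a)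
    rw [← hw2]
    rw [h3 a ha] at hw1
    have : w = 0 := Subtype.ext hw1
    rw [this, map_zero]
  · obtain ⟨w, hw1, hw2⟩ := eval_emb E L σ x (F a)
    rw [← hw2]
    intro h0
    have h6 : w = 0 := σ.injective (by rw [map_zero]; exact h0)
    apply h4 a ha
    rw [← hw1, h6]
    rfl
  · obtain ⟨w, hw1, hw2⟩ := eval_emb E L σ x (F a)
    have h6 := h5 a ha j
    rw [← hR] at h6 ⊢
    rw [← hw1] at h6
    rw [← hw2]
    let iE : R →+* E :=
      { toFun := fun r => ⟨r, hRE r.2⟩
        map_one' := rfl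
        map_mul' := fun _ _ => rfl
        map_zero' := rfl
        map_add' := fun _ _ => rfl }
    let _ : Algebra R L := ((algebraMap E L).comp iE).toAlgebra
    let v : L →ₐ[R] K := { (L.val : L →+* K) with commutes' := fun r => rfl }
    let s : L →ₐ[R] K := { (σ : L →+* K) with commutes' := fun r => σ.commutes (iE r) }
    have h7 : IsIntegral R (x j ^ dg a / w) := by
      refine (isIntegral_algHom_iff v v.toRingHom.injective).1 ?_
      exact h6
    have h8 := h7.map s
    have h9 : s (x j ^ dg a / w) = σ (x j) ^ dg a / σ w := by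
      change σ (x j ^ dg a / w) = _
      rw [map_div₀, map_pow]
    rw [h9] at h8
    exact h8

end Pool.Agent.Y735.LB
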