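import Pool.Agent.Y735.LB.Heights

/-!
Heights of the coefficients of the minimal polynomials for integral points of bounded degree.
-/

set_option autoImplicit false

open MvPolynomial FF Pool.Agent.W603.LV Pool.Agent.W603.PV Pool.Agent.W602.RG
open Pool.Agent.TH145 Pool.Agent.TH145.GH Pool.Agent.TH145.GC
open Pool.Agent.TH145.MG (DimLE)
open Pool.Agent.Y735.R (disc_le_pht adjoin_top finrank_adjoin_le hgt_comb_le)

namespace Pool.Agent.Y735.LB

variable {k0 K ι : Type} [Field k0] [Field K] [Algebra k0 K] [IsAlgClosed K] [CharZero K]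
  {y : ι → K} (E : IntermediateField (IntermediateField.adjoin k0 (Set.range y)) K)

/-- Integral elements are regular at the places over which the generators of the ring are
regular. -/
theorem ge_of_integral (i : ι) {T : Finset K} (hT : ∀ t ∈ T, t ∈ E)
    {L : Type} [Field L] [Algebra (kap k0 y i) L] [Algebra (LL k0 y (E : Set K) i) L]
    [IsScalarTower (kap k0 y i) (LL k0 y (E : Set K) i) L]
    [IsAlgClosed (kap k0 y i)] [CharZero (kap k0 y i)]
    [IsFF (kap k0 y i) (LL k0 y (E : Set K) i)] [IsFF (kap k0 y i) L]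
    [FiniteDimensional (LL k0 y (E : Set K) i) L] [Algebra L K]
    [IsScalarTower (LL k0 y (E : Set K) i) L K] (P : Place (kap k0 y i) L)
    (hP : ∀ t (ht : t ∈ T), Ge (under (LL k0 y (E : Set K) i) P) 0
      (⟨t, subset_LL y _ i (hT t ht)⟩ : LL k0 y (E : Set K) i)) {w : L}
    (hw : IsIntegral (Subring.closure (Set.range (algebraMap k0 K) ∪ (T : Set K)))
      (algebraMap L K w)) : Ge P 0 w := by
  obtain ⟨N, c, hc⟩ := exists_monic hw
  have h1 : ∀ i', ∃ a : LL k0 y (E : Set K) i, (a : K) = c i' ∧
      Ge (under (LL k0 y (E : Set K) i) P) 0 a := fun i' =>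
    ge_of_closure E i _ hT hP (c i').2
  choose a ha haP using h1
  refine ge_of_monic P (N := N) (c := fun i' => algebraMap (LL k0 y (E : Set K) i) L (a i'))
    (fun i' _ => ?_) ?_
  · by_cases h0 : a i' = 0
    · left
      rw [h0, map_zero]
    · right
      rw [ord_under]
      exact mul_nonneg (by positivity) ((haP i').resolve_left h0)
  · apply (algebraMap L K).injective
    rw [map_zero, map_add, map_pow, map_sum, ← hc]
    congr 1
    refine Finset.sum_congr rfl fun i' _ => ?_
    rw [map_mul, map_pow, ← IsScalarTower.algebraMap_apply]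
    congr 1
    exact ha i'

/-- The heights of the coefficients of the minimal polynomials are bounded. -/
theorem heights_log {n m r : ℕ} {A : Type} [Fintype A] {dg : A → ℕ}
    (hy : AlgebraicIndependent k0 y)
    [FiniteDimensional (IntermediateField.adjoin k0 (Set.range y)) E]
    {F : A → MvPolynomial (Fin (n + 1)) E.toSubfield}
    {DE : A → (Fin (n + 1) →₀ ℕ) → E.toSubfield → E.toSubfield}
    (hG : GC.Gen F dg DE)
    (D : A → (Fin (n + 1) →₀ ℕ) → Derivation ℤ K K)
    (hDE : ∀ a I (x : E.toSubfield), D a I x = (DE a I x : K))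
    (hDk : ∀ a I (r : k0), D a I (algebraMap k0 K r) = 0)
    (hDy : ∀ a I j, ∃ r : k0, D a I (y j) = algebraMap k0 K r) (C : Finset A)
    (hd : 2 * m + 2 * r ≤ ∑ a, dg a + C.card) (V : Set (MvPolynomial (Fin (n + 1)) k0))
    (hV : DimLE k0 V m) (l0 : Fin (n + 1)) (T : Finset K) (hT : ∀ t ∈ T, t ∈ E) (i : ι) :
    ∃ B : ℤ, ∀ x : Fin (n + 1) → K, Cond E F dg V C l0 T x →
      ∀ LE : IntermediateField E K, FiniteDimensional E LE → Module.finrank E LE ≤ r →
      (∀ j, x j ∈ LE) → (∀ c : Fin (n + 1) → ℕ,
      (minpoly E (∑ j, (c j : K) * x j)).natDegree ≤ r ∧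
      ∀ j, hgt (kap k0 y i) (⟨((minpoly E (∑ j, (c j : K) * x j)).coeff j : K),
        subset_LL y _ i ((minpoly E (∑ j, (c j : K) * x j)).coeff j).2⟩ :
        LL k0 y (E : Set K) i) ≤ B) ∧ ∀ a, a ∉ C → ∀ l,
      (minpoly E (x l ^ dg a / eval x (map E.toSubfield.subtype (F a)))).natDegree ≤ r ∧
      ∀ j, hgt (kap k0 y i) (⟨((minpoly E (x l ^ dg a /
        eval x (map E.toSubfield.subtype (F a)))).coeff j : K),
        subset_LL y _ i ((minpoly E (x l ^ dg a /
        eval x (map E.toSubfield.subtype (F a)))).coeff j).2⟩ :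
        LL k0 y (E : Set K) i) ≤ B := by
  classical
  have hFF : IsFF (kap k0 y i) (LL k0 y (E : Set K) i) := LL_ff E hy i
  have hac : IsAlgClosed (kap k0 y i) := acl_isAlgClosed _
  have hcz : CharZero (kap k0 y i) := charZero_of_injective_algebraMap
    (algebraMap ℚ (kap k0 y i)).injective
  have hczE : CharZero E := charZero_of_injective_algebraMap (algebraMap ℚ E).injective
  obtain ⟨φ, D', e, hφ, hD', hdat⟩ := exists_data_L E hy hG D hDE hDk hDy i
  have hSem : ∀ a I, Sem (kap k0 y i) (D' a I) := fun a I c => by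
    refine ⟨⟨_, der_kap (D a I) (hDk a I) (hDy a I) i c.2⟩, ?_⟩
    apply Subtype.ext
    exact hD' a I _
  let ψ : k0 →+* LL k0 y (E : Set K) i :=
    { toFun := fun r => ⟨algebraMap k0 K r, subset_LL y _ i (k0_mem E r)⟩
      map_one' := Subtype.ext (map_one _)
      map_mul' := fun a b => Subtype.ext (map_mul _ a b)
      map_zero' := Subtype.ext (map_zero _)
      map_add' := fun a b => Subtype.ext (map_add _ a b) }
  have hDψ : ∀ a I (r : k0), D' a I (ψ r) = 0 := fun a I r => by
    apply Subtype.ext
    rw [hD']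
    exact hDk a I r
  obtain ⟨C0, hC0⟩ := TH812.GV2.sum_under (k := kap k0 y i) hdat.e_nonneg hdat.fin
  -- the poles of the generators
  obtain ⟨Z, hZ⟩ : ∃ Z : Finset (LL k0 y (E : Set K) i), ∀ t (ht : t ∈ T),
      (⟨t, subset_LL y _ i (hT t ht)⟩ : LL k0 y (E : Set K) i) ∈ Z :=
    ⟨T.attach.image (fun t : {t // t ∈ T} =>
      (⟨t.1, subset_LL y _ i (hT t.1 t.2)⟩ : LL k0 y (E : Set K) i)), fun t ht =>
      Finset.mem_image.2 ⟨⟨t, ht⟩, Finset.mem_attach _ _, rfl⟩⟩
  obtain ⟨g1, hg1, hg1f, hg1T⟩ := exists_poles (κ := kap k0 y i) Z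
  obtain ⟨q1, hq1⟩ : ∃ q1 : Place (kap k0 y i) (LL k0 y (E : Set K) i) → ℤ,
    ∀ v, q1 v = if g1 v ≠ 0 then 1 else 0 := ⟨_, fun _ => rfl⟩
  have hq10 : ∀ v, 0 ≤ q1 v := fun v => by
    rw [hq1]
    split_ifs <;> norm_num
  have hq1f : {v | q1 v ≠ 0}.Finite := hg1f.subset fun v hv => by
    by_contra hcon
    apply hv
    rw [hq1, if_neg (show ¬ g1 v ≠ 0 from hcon)]
  obtain ⟨C1, hC1⟩ := TH812.GV2.sum_under (k := kap k0 y i) hq10 hq1f
  let _ : Algebra E (LL k0 y (E : Set K) i) := RingHom.toAlgebra
    { toFun := fun r => ⟨(r : K), subset_LL y _ i r.2⟩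
      map_one' := rfl
      map_mul' := fun a b => rfl
      map_zero' := rfl
      map_add' := fun a b => rfl }
  have hst : IsScalarTower E (LL k0 y (E : Set K) i) K :=
    IsScalarTower.of_algebraMap_eq fun _ => rfl
  obtain ⟨B0, hB0⟩ : ∃ B0 : ℤ, B0 = (Fintype.card A + m + 3) * (C0 * r) + C1 * r := ⟨_, rfl⟩
  -- the height of the point
  have hpt : ∀ x : Fin (n + 1) → K, Cond E F dg V C l0 T x →
      ∀ LE : IntermediateField E K, FiniteDimensional E LE → Module.finrank E LE ≤ r →
      (∀ j, x j ∈ LE) →
      FiniteDimensional (LL k0 y (E : Set K) i)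
        (IntermediateField.adjoin (LL k0 y (E : Set K) i) (Set.range x)) ∧
      Module.finrank (LL k0 y (E : Set K) i)
        (IntermediateField.adjoin (LL k0 y (E : Set K) i) (Set.range x)) ≤ r ∧
      ∃ x' : Fin (n + 1) → IntermediateField.adjoin (LL k0 y (E : Set K) i) (Set.range x),
        (∀ j, (x' j : K) = x j) ∧ (∀ a, ((eval x' (map (algebraMap _ _) (map φ (F a))) :
          IntermediateField.adjoin (LL k0 y (E : Set K) i) (Set.range x)) : K) =
          eval x (map E.toSubfield.subtype (F a))) ∧ pht (kap k0 y i) x' ≤ B0 := by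
    rintro x ⟨hxl, hxV, hxC, hxF, hxI⟩ LE hfd hr hxL
    obtain ⟨h1, h2⟩ := finrank_adjoin_le (F := LL k0 y (E : Set K) i) (Set.range x) LE (by
      rintro _ ⟨j, rfl⟩
      exact hxL j)
    obtain ⟨x', hx'⟩ : ∃ x' : Fin (n + 1) →
      IntermediateField.adjoin (LL k0 y (E : Set K) i) (Set.range x), ∀ j, (x' j : K) = x j :=
      ⟨fun j => ⟨x j, IntermediateField.subset_adjoin _ _ ⟨j, rfl⟩⟩, fun _ => rfl⟩
    have hLF : IsFF (kap k0 y i)
        (IntermediateField.adjoin (LL k0 y (E : Set K) i) (Set.range x)) :=
      isFF_of_finite (F := LL k0 y (E : Set K) i)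
    have hxl' : x' l0 = 1 := Subtype.ext ((hx' l0).trans hxl)
    have hev : ∀ a, ((eval x' (map (algebraMap _ _) (map φ (F a))) :
        IntermediateField.adjoin (LL k0 y (E : Set K) i) (Set.range x)) : K) =
        eval x (map E.toSubfield.subtype (F a)) := fun a => by
      rw [eval_map, eval₂_map, eval_map]
      have h4 := hom_eval₂ (F a) ((algebraMap (LL k0 y (E : Set K) i)
        (IntermediateField.adjoin (LL k0 y (E : Set K) i) (Set.range x))).comp φ)
        (algebraMap (IntermediateField.adjoin (LL k0 y (E : Set K) i) (Set.range x)) K) x'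
      refine h4.trans ?_
      have h5 : (fun j => algebraMap (IntermediateField.adjoin (LL k0 y (E : Set K) i)
        (Set.range x)) K (x' j)) = x := funext hx'
      have h6 : (algebraMap (IntermediateField.adjoin (LL k0 y (E : Set K) i)
        (Set.range x)) K).comp ((algebraMap (LL k0 y (E : Set K) i)
        (IntermediateField.adjoin (LL k0 y (E : Set K) i) (Set.range x))).comp φ) =
        E.toSubfield.subtype := by
        ext r
        exact hφ r
      rw [h5, h6]
    refine ⟨h1, h2.trans hr, x', hx', hev, ?_⟩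
    have hxF' : ∀ a, a ∉ C → eval x' (map (algebraMap (LL k0 y (E : Set K) i)
        (IntermediateField.adjoin (LL k0 y (E : Set K) i) (Set.range x))) (map φ (F a))) ≠ 0 := by
      intro a ha h0
      have h3 := hev a
      rw [h0] at h3
      exact hxF a ha h3.symm
    obtain ⟨S, hS⟩ : ∃ S : Set (Place (kap k0 y i)
        (IntermediateField.adjoin (LL k0 y (E : Set K) i) (Set.range x))),
        S = {P | (ram (LL k0 y (E : Set K) i) P : ℤ) *
          q1 (under (LL k0 y (E : Set K) i) P) ≠ 0} := ⟨_, rfl⟩
    obtain ⟨hS1, hS2⟩ :=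
      hC1 (IntermediateField.adjoin (LL k0 y (E : Set K) i) (Set.range x))
    rw [← hS] at hS1
    have hSc : (S.ncard : ℤ) ≤ C1 * r := by
      refine le_trans ?_ (hS2.trans (mul_le_mul_of_nonneg_left (by exact_mod_cast h2.trans hr)
        (by positivity)))
      rw [finsum_eq_sum_of_support_subset (s := hS1.toFinset) _ (fun P hP => by
        rw [Set.Finite.coe_toFinset, hS]
        exact hP), Set.ncard_eq_toFinset_card S hS1]
      have h3 : ∀ P ∈ hS1.toFinset, (1 : ℤ) ≤ (ram (LL k0 y (E : Set K) i) P : ℤ) *
          q1 (under (LL k0 y (E : Set K) i) P) := by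
        intro P hP
        rw [Set.Finite.mem_toFinset, hS] at hP
        have h4 : 0 ≤ (ram (LL k0 y (E : Set K) i) P : ℤ) *
          q1 (under (LL k0 y (E : Set K) i) P) := mul_nonneg (by positivity) (hq10 _)
        have hP' : (ram (LL k0 y (E : Set K) i) P : ℤ) *
          q1 (under (LL k0 y (E : Set K) i) P) ≠ 0 := hP
        omega
      have h5 := Finset.sum_le_sum h3
      simpa using h5
    have h3 := pht_cnt ψ hdat hDψ hSem V hV hxl' (fun f hf => by
        apply Subtype.ext
        have h4 := hom_eval₂ f ((algebraMap (LL k0 y (E : Set K) i)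
          (IntermediateField.adjoin (LL k0 y (E : Set K) i) (Set.range x))).comp ψ)
          (algebraMap (IntermediateField.adjoin (LL k0 y (E : Set K) i) (Set.range x)) K) x'
        refine h4.trans ?_
        have h5 : (fun j => algebraMap (IntermediateField.adjoin (LL k0 y (E : Set K) i)
          (Set.range x)) K (x' j)) = x := funext hx'
        rw [h5]
        exact hxV f hf) C hd (h2.trans hr) (adjoin_top x x' hx')
      (fun a ha => by
        apply Subtype.ext
        exact (hev a).trans (hxC a ha)) hxF' S hS1 (fun P hP a ha => by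
        refine le_of_int P (fun h0 => ?_) (hxF' a ha) fun j => ?_
        · rw [h0] at hxl'
          exact zero_ne_one hxl'
        · refine ge_of_integral E i hT P (fun t ht => ?_) (by
            rw [map_div₀, map_pow]
            have h4 : algebraMap (IntermediateField.adjoin (LL k0 y (E : Set K) i)
              (Set.range x)) K (x' j) = x j := hx' j
            have h5 : algebraMap (IntermediateField.adjoin (LL k0 y (E : Set K) i)
              (Set.range x)) K (eval x' (map (algebraMap _ _) (map φ (F a)))) =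
              eval x (map E.toSubfield.subtype (F a)) := hev a
            rw [h4, h5]
            exact hxI a ha j)
          have h4 : g1 (under (LL k0 y (E : Set K) i) P) = 0 := by
            by_contra hcon
            apply hP
            rw [hS]
            change (ram (LL k0 y (E : Set K) i) P : ℤ) *
              q1 (under (LL k0 y (E : Set K) i) P) ≠ 0
            rw [hq1, if_pos hcon, mul_one]
            have := (ram_spec (F := LL k0 y (E : Set K) i) P).1
            omega
          have h5 := hg1T (under (LL k0 y (E : Set K) i) P) _ (hZ t ht)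
          rwa [h4, neg_zero] at h5)
    refine h3.trans ?_
    rw [hB0]
    refine add_le_add (mul_le_mul_of_nonneg_left ?_ (by positivity)) hSc
    exact ((hC0 _).2).trans (mul_le_mul_of_nonneg_left (by exact_mod_cast h2.trans hr)
      (by positivity))
  choose Be hBe using fun a => hgt_eval_ext (κ := kap k0 y i) r B0 (map φ (F a))
  obtain ⟨B2, hB2⟩ : ∃ B2 : ℤ, ∀ a, dg a * B0 + Be a ≤ B2 := by
    obtain ⟨B, hB⟩ := (Set.finite_range fun a => dg a * B0 + Be a).bddAbove
    exact ⟨B, fun a => hB ⟨a, rfl⟩⟩
  refine ⟨max (r * B0) (r * B2), fun x hx LE hfd hr hxL => ⟨fun c => ?_, fun a ha l => ?_⟩⟩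
  · have key := hgt_minpoly_fun (κ := kap k0 y i) (E := E) (F := LL k0 y (E : Set K) i) (r := r)
      (fun x : Fin (n + 1) → K => Cond E F dg V C l0 T x)
      (fun L σ x h => Cond.emb E hT L σ x h) (fun x => ∑ j, (c j : K) * x j)
      (fun L σ x => ⟨∑ j, (c j : L) * x j, by push_cast; rfl, by
        rw [map_sum]
        exact Finset.sum_congr rfl fun j _ => by rw [map_mul, map_natCast]⟩) B0
      (fun x hx LE hfd hr hxL => by
        obtain ⟨h1, h2, x', hx', hev, h3⟩ := hpt x hx LE hfd hr hxL
        have hLF : IsFF (kap k0 y i)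
            (IntermediateField.adjoin (LL k0 y (E : Set K) i) (Set.range x)) :=
          isFF_of_finite (F := LL k0 y (E : Set K) i)
        have hmem : ∀ j, x j ∈ IntermediateField.adjoin (LL k0 y (E : Set K) i) (Set.range x) :=
          fun j => IntermediateField.subset_adjoin _ _ ⟨j, rfl⟩
        have hxl' : x' l0 = 1 := Subtype.ext ((hx' l0).trans hx.1)
        refine ⟨_, h1, sum_mem fun j _ => mul_mem (natCast_mem _ (c j)) (hmem j), ?_⟩
        have h5 := hgt_comb_le (k := kap k0 y i) x' hxl' (fun j => (c j : _))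
          (fun j P => Ge.natCast _)
        refine le_trans (le_of_eq ?_) (h5.trans h3)
        congr 1
        apply Subtype.ext
        push_cast
        exact Finset.sum_congr rfl fun j _ => by rw [hx' j]) hx hfd hr hxL
    refine ⟨key.1, fun j => (key.2 j).trans (le_max_left _ _)⟩
  · have key := hgt_minpoly_fun (κ := kap k0 y i) (E := E) (F := LL k0 y (E : Set K) i) (r := r)
      (fun x : Fin (n + 1) → K => Cond E F dg V C l0 T x)
      (fun L σ x h => Cond.emb E hT L σ x h)
      (fun x => x l ^ dg a / eval x (map E.toSubfield.subtype (F a)))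
      (fun L σ x => by
        obtain ⟨w, hw1, hw2⟩ := eval_emb E L σ x (F a)
        refine ⟨x l ^ dg a / w, ?_, ?_⟩
        · rw [← hw1]
          push_cast
          rfl
        · rw [map_div₀, map_pow, hw2]) B2
      (fun x hx LE hfd hr hxL => by
        obtain ⟨h1, h2, x', hx', hev, h3⟩ := hpt x hx LE hfd hr hxL
        have hLF : IsFF (kap k0 y i)
            (IntermediateField.adjoin (LL k0 y (E : Set K) i) (Set.range x)) :=
          isFF_of_finite (F := LL k0 y (E : Set K) i)
        have hxl' : x' l0 = 1 := Subtype.ext ((hx' l0).trans hx.1)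
        have hxh : ∀ j, hgt (kap k0 y i) (x' j) ≤ B0 := by
          intro j
          by_cases hj : x' j = 0
          · rw [hj]
            have := Pool.Agent.TH145.MG.hgt_const (k := kap k0 y i)
              (L := IntermediateField.adjoin (LL k0 y (E : Set K) i) (Set.range x)) 0
            rw [map_zero] at this
            rw [this]
            have hl0 : x' l0 ≠ 0 := by rw [hxl']; exact one_ne_zero
            exact ((hgt_nonneg _).trans
              (Pool.Agent.W603.CX.hgt_le_pht (k := kap k0 y i) x' hl0 hl0)).trans h3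
          · have h4 := Pool.Agent.W603.CX.hgt_le_pht (k := kap k0 y i) x' hj (l := l0)
              (by rw [hxl']; exact one_ne_zero)
            rw [hxl', div_one] at h4
            exact h4.trans h3
        have h4 := hBe a (IntermediateField.adjoin (LL k0 y (E : Set K) i) (Set.range x)) h2 x' hxh
        have h5 : ((x' l ^ dg a / eval x' (map (algebraMap _ _) (map φ (F a))) :
            IntermediateField.adjoin (LL k0 y (E : Set K) i) (Set.range x)) : K) =
            x l ^ dg a / eval x (map E.toSubfield.subtype (F a)) := by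
          rw [← hev a, ← hx' l]
          push_cast
          rfl
        have h6 : x l ^ dg a / eval x (map E.toSubfield.subtype (F a)) ∈
            IntermediateField.adjoin (LL k0 y (E : Set K) i) (Set.range x) := by
          rw [← h5]
          exact Subtype.mem _
        refine ⟨_, h1, h6, ?_⟩
        have h7 : (⟨_, h6⟩ : IntermediateField.adjoin (LL k0 y (E : Set K) i) (Set.range x)) =
            x' l ^ dg a / eval x' (map (algebraMap _ _) (map φ (F a))) :=
          Subtype.ext h5.symm
        rw [h7, div_eq_mul_inv]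
        refine (Pool.Agent.TH145.MW.hgt_mul_le (k := kap k0 y i) _ _).trans ?_
        rw [hgt_inv]
        refine (add_le_add ((Pool.Agent.TH145.MW.hgt_pow_le (k := kap k0 y i) _ _).trans
          (mul_le_mul_of_nonneg_left (hxh l) (by positivity))) h4).trans (hB2 a)) hx hfd hr hxL
    refine ⟨key.1, fun j => (key.2 j).trans (le_max_right _ _)⟩

end Pool.Agent.Y735.LB
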