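import Pool.Agent.TH812.GV2.Loss
import Pool.Agent.TH812.GV.Ineq

/-!
Derivations that kill a function with a zero or a pole at a place are regular in the logarithmic
sense at this place.
-/

set_option autoImplicit false

open FF Pool.Agent.W603.LV Pool.Agent.W603.PV Pool.Agent.TH145.GH

namespace Pool.Agent.Y735.LB

open Pool.Agent.TH812.GV Pool.Agent.TH812.GV2

variable {k K : Type} [Field k] [Field K] [Algebra k K] [IsAlgClosed k] [CharZero k] [IsFF k K]

theorem log_of_kill (P : Place k K) {D : Derivation ℤ K K} (hS : Sem k D) {π : K}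
    (hπ : P.ord π ≠ 0) (h0 : D π = 0) {f : K} : Ge P (P.ord f) (D f) := by
  have hK : CharZero K := charZero_of_injective_algebraMap (algebraMap k K).injective
  obtain ⟨δ, hδ⟩ := exists_locd P
  have hπ0 : π ≠ 0 := by
    rintro rfl
    exact hπ P.ord_zero
  have ht := ord_unif P
  have ht0 : unif P ≠ 0 := by
    intro h
    rw [h, P.ord_zero] at ht
    omega
  have hδ0 : ∀ (g : ℤ) (f : K), Ge P g f → Ge P (g - 1) (δ f) := fun g f hf =>
    (ge_der P (q := 0) (fun f hf => (hδ.2.2 f hf).mono (by omega)) hf).mono (by omega)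
  have hDt : Ge P 1 (D (unif P)) := by
    obtain ⟨e, he⟩ : ∃ e, e = P.ord π := ⟨_, rfl⟩
    obtain ⟨u, hu⟩ : ∃ u, u = π * unif P ^ (-e) := ⟨_, rfl⟩
    have hu0 : u ≠ 0 := by
      rw [hu]
      exact mul_ne_zero hπ0 (zpow_ne_zero _ ht0)
    have huo : P.ord u = 0 := by
      rw [hu, P.ord_mul hπ0 (zpow_ne_zero _ ht0), P.ord_zpow, ht, ← he]
      ring
    have hπu : π = u * unif P ^ e := by
      rw [hu, mul_assoc, ← zpow_add₀ ht0]
      simp
    have h1 : δ π = unif P ^ (e - 1) * (unif P * δ u + e * u) := by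
      conv_lhs => rw [hπu]
      rw [δ.leibniz, Derivation.leibniz_zpow, hδ.1]
      simp only [smul_eq_mul, zsmul_eq_mul, mul_one]
      have h2 : unif P ^ e = unif P ^ (e - 1) * unif P := by
        rw [← zpow_add_one₀ ht0]
        simp
      rw [h2]
      ring
    have he0 : (e : K) ≠ 0 := by
      rw [he]
      exact_mod_cast hπ
    have h3 : Ge P 1 (unif P * δ u) := by
      have h4 : Ge P 0 (δ u) := hδ.2.2 u (Or.inr huo.ge)
      have h5 : Ge P 1 (unif P) := Or.inr ht.ge
      have := h5.mul h4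
      rwa [add_zero] at this
    have h4 : P.ord ((e : K) * u) = 0 := by
      rw [P.ord_mul he0 hu0, huo, add_zero]
      have h5 : (0 : ℤ) ≤ P.ord (e : K) := (Ge.intCast (P := P) e).resolve_left he0
      have h6 : Ge P 0 ((e : K)⁻¹) := by
        have h7 : ((e : K))⁻¹ = algebraMap k K (e : k)⁻¹ := by simp
        rw [h7]
        exact Ge.const _
      have h7 := h6.resolve_left (inv_ne_zero he0)
      rw [P.ord_inv] at h7
      omega
    obtain ⟨w, hw⟩ : ∃ w, w = unif P * δ u + e * u := ⟨_, rfl⟩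
    have hw0 : ¬ Ge P 1 w := by
      intro h
      have h5 := h.sub h3
      rw [hw, add_sub_cancel_left] at h5
      rcases h5 with h5 | h5
      · exact mul_ne_zero he0 hu0 h5
      · omega
    have hwn : w ≠ 0 := fun h => hw0 (Or.inl h)
    have hwo : P.ord w ≤ 0 := by
      by_contra hcon
      exact hw0 (Or.inr (by omega))
    have h5 := sem_loc hδ hS (Or.inr he.le : Ge P e π)
    rw [h0, zero_sub] at h5
    have h6 : Ge P e (D (unif P) * δ π) := by
      have := h5.neg
      rwa [neg_neg] at this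
    by_cases hD0 : D (unif P) = 0
    · exact Or.inl hD0
    right
    rw [h1, ← hw] at h6
    have h7 := h6.resolve_left (mul_ne_zero hD0 (mul_ne_zero (zpow_ne_zero _ ht0) hwn))
    rw [P.ord_mul hD0 (mul_ne_zero (zpow_ne_zero _ ht0) hwn), P.ord_mul (zpow_ne_zero _ ht0) hwn,
      P.ord_zpow, ht, mul_one] at h7
    omega
  have h1 := sem_loc hδ hS (Or.inr le_rfl : Ge P (P.ord f) f)
  have h2 := hDt.mul (hδ0 (P.ord f) f (Or.inr le_rfl))
  have h3 := h1.add (h2.mono (by omega))
  rwa [sub_add_cancel] at h3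

end Pool.Agent.Y735.LB
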