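import Pool.Agent.TH812.GV2.Global
import Pool.Agent.TH145.GH.LimB

/-!
Statements for the integral points of bounded degree on generic pairs.
-/

set_option autoImplicit false

open MvPolynomial FF Pool.Agent.W603.LV Pool.Agent.W603.PV Pool.Agent.W602.RG
open Pool.Agent.TH145 Pool.Agent.TH145.GH

namespace Pool.Agent.Y735.LB

open Pool.Agent.TH812.GV Pool.Agent.TH812.GV2

open Classical in
/-- The height inequality `Pool.Agent.TH812.GV2.ineq2`, without the contribution of the places at
which the point meets the hypersurfaces, if the derivations are regular in the logarithmic sense at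
these places. -/
def S_INEQ : Prop :=
  ∀ (k K : Type) [Field k] [Field K] [Algebra k K] [IsAlgClosed k] [CharZero k] [IsFF k K]
    (n : ℕ) (α : Type) [Fintype α] (F : α → MvPolynomial (Fin (n + 1)) K) (d : α → ℕ)
    (D : α → (Fin (n + 1) →₀ ℕ) → Derivation ℤ K K) (ep : α → (Fin (n + 1) →₀ ℕ) → ℕ)
    (q e : Place k K → ℤ), SysS k F d D ep q e → ∀ (x : Fin (n + 1) → K), x ≠ 0 →
    ∀ (m : ℕ) (W : Submodule K (Fin (n + 1) → K)), Module.finrank K W ≤ m + 1 → x ∈ W →
    (∀ a (I : Fin (n + 1) →₀ ℕ), I.degree = d a → (fun l => D a I (x l)) ∈ W) →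
    (∀ P : Place k K, (∀ a, eval x (F a) ≠ 0 → P.ord (eval x (F a)) ≤ d a * pord P x) ∨
      ∀ a (I : Fin (n + 1) →₀ ℕ), I.degree = d a → ∀ f : K, f ≠ 0 →
        Ge P (P.ord f) (D a I f)) →
    ((∑ a, (d a : ℤ)) + ((Finset.univ.filter fun a => eval x (F a) = 0).card : ℤ) -
      2 * m - 1) * pht k x ≤ ∑ᶠ P : Place k K,
        (e P + ((Finset.univ.filter fun a => eval x (F a) ≠ 0).card + m + 2) * q P)

/-- Limits of integral elements of bounded height: `Pool.Agent.TH145.GH.lim_int` for elements that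
are integral over the finitely generated ring. -/
def S_LIM : Prop :=
  ∀ (k0 K ι : Type) [Field k0] [Field K] [Algebra k0 K] [CharZero K] [IsAlgClosed K]
    (y : ι → K) (E : IntermediateField (IntermediateField.adjoin k0 (Set.range y)) K)
    (_ : IsTranscendenceBasis k0 y) [Finite ι]
    [FiniteDimensional (IntermediateField.adjoin k0 (Set.range y)) E]
    [IsGalois (IntermediateField.adjoin k0 (Set.range y)) E] (T : Finset K) (f : ℕ → E),
    (∀ m, IsIntegral (Subring.closure (Set.range (algebraMap k0 K) ∪ (T : Set K))) (f m : K)) →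
    ∀ (B : ι → ℤ), (∀ m i, hgt (kap k0 y i)
      (⟨(f m : K), subset_LL y _ i (f m).2⟩ : LL k0 y (E : Set K) i) ≤ B i) →
    Om.mk (fun m => (f m : K)) ∈
      Subring.closure (Set.range (mapOm k0 K) ∪ cst K '' (E : Set K))

end Pool.Agent.Y735.LB
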