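import Pool.Agent.Y735.R.HeightsR
import Pool.Agent.Y735.LB.Stm
import Pool.Agent.Y735.LB.LogReg

/-!
The height inequality for points of complements of hypersurfaces over finite extensions of a function
field.
-/

set_option autoImplicit false

open MvPolynomial FF Pool.Agent.W603.LV Pool.Agent.W603.PV Pool.Agent.TH145.GH
open Pool.Agent.TH145.MG (DimLE)
open Pool.Agent.TH145

namespace Pool.Agent.Y735.LB

open Pool.Agent.Y735.R

/-- The extensions of the derivations. -/
theorem exists_sys {k0 κ F L : Type} [Field k0] [Field κ] [Field F] [Field L] [IsAlgClosed κ]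
    [CharZero κ] [Algebra κ F] [IsFF κ F] [Algebra κ L] [Algebra F L] [IsScalarTower κ F L]
    [FiniteDimensional F L] [IsFF κ L] (ψ : k0 →+* F) {n m : ℕ} {A : Type} [Fintype A]
    {dg : A → ℕ} {G : A → MvPolynomial (Fin (n + 1)) F}
    {D : A → (Fin (n + 1) →₀ ℕ) → Derivation ℤ F F} {q : Place κ F → ℤ}
    (hdat : GC.Data κ G dg D q) (hDk : ∀ a I (r : k0), D a I (ψ r) = 0)
    (hSem : ∀ a I, Sem κ (D a I)) (V : Set (MvPolynomial (Fin (n + 1)) k0)) (hV : DimLE k0 V m)
    {x : Fin (n + 1) → L} (hx : x ≠ 0)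
    (hxV : ∀ f ∈ V, eval₂ ((algebraMap F L).comp ψ) x f = 0) :
    ∃ (D' : A → (Fin (n + 1) →₀ ℕ) → Derivation ℤ L L) (W : Submodule L (Fin (n + 1) → L))
      (ql el : Place κ L → ℤ),
      (∀ P, ql P = ram F P * q (under F P)) ∧ (∀ P, el P = ((ram F P : ℤ) - 1) + ql P) ∧
      {P | ql P ≠ 0}.Finite ∧
      TH812.GV2.SysS κ (fun a => map (algebraMap F L) (G a)) dg D' (fun _ _ => 0) ql el ∧
      (∀ a I f, D' a I (algebraMap F L f) = algebraMap F L (D a I f)) ∧
      (∀ a I, Sem κ (D' a I)) ∧ Module.finrank L W ≤ m + 1 ∧ x ∈ W ∧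
      ∀ a I, (fun l => D' a I (x l)) ∈ W := by
  classical
  have hF : CharZero F := charZero_of_injective_algebraMap (algebraMap κ F).injective
  have hL : CharZero L := charZero_of_injective_algebraMap (algebraMap κ L).injective
  let _ : Algebra k0 F := ψ.toAlgebra
  let _ : Algebra k0 L := ((algebraMap F L).comp ψ).toAlgebra
  have hst : IsScalarTower k0 F L := IsScalarTower.of_algebraMap_eq fun _ => rfl
  obtain ⟨E, hE⟩ : ∃ E : A → (Fin (n + 1) →₀ ℕ) → Derivation k0 F F, ∀ a I f, E a I f = D a I f :=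
    ⟨fun a I => toDer (D a I) (hDk a I), fun _ _ _ => rfl⟩
  choose D' hD' using fun a I => exists_ext_der (L := L) (E a I)
  have hD1 : ∀ a I f, D' a I (algebraMap F L f) = algebraMap F L (D a I f) := fun a I f => by
    rw [hD', hE]
  have hS' : ∀ a I, Sem κ ((D' a I).restrictScalars ℤ) := by
    intro a I c
    obtain ⟨c', hc'⟩ := hSem a I c
    refine ⟨c', ?_⟩
    rw [IsScalarTower.algebraMap_apply κ F L, IsScalarTower.algebraMap_apply κ F L, ← hc']
    exact hD1 a I _
  obtain ⟨ql, hql⟩ : ∃ ql : Place κ L → ℤ, ∀ P, ql P = ram F P * q (under F P) :=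
    ⟨_, fun _ => rfl⟩
  obtain ⟨el, hel⟩ : ∃ el : Place κ L → ℤ, ∀ P, el P = ((ram F P : ℤ) - 1) + ql P :=
    ⟨_, fun _ => rfl⟩
  have hql0 : ∀ P, 0 ≤ ql P := fun P => by
    rw [hql]
    exact mul_nonneg (by positivity) (hdat.e_nonneg _)
  have hram1 : ∀ P : Place κ L, (1 : ℤ) ≤ ram F P := fun P => by
    exact_mod_cast (ram_spec (F := F) P).1
  have hqfin : {P : Place κ L | ql P ≠ 0}.Finite := by
    refine (finite_over_set (L := L) hdat.fin).subset fun P hP => ?_
    have hP' : ql P ≠ 0 := hP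
    rw [hql] at hP'
    exact right_ne_zero_of_mul hP'
  have hrfin : {P : Place κ L | (ram F P : ℤ) - 1 ≠ 0}.Finite := ram_finite (F := F)
  have hefin : {P : Place κ L | el P ≠ 0}.Finite := by
    refine (hrfin.union hqfin).subset fun P hP => ?_
    by_contra hcon
    simp only [Set.mem_union, Set.mem_ofPred_eq, not_or, not_not] at hcon
    apply hP
    rw [hel, hcon.1, hcon.2, add_zero]
  have hsys : TH812.GV2.SysS κ (fun a => map (algebraMap F L) (G a)) dg
      (fun a I => (D' a I).restrictScalars ℤ) (fun _ _ => 0) ql el := by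
    refine ⟨fun a => (hdat.hom a).map _, ?_, hql0, fun P => ?_, fun P a I hI => ?_,
      fun P δ hδ a I hI g f hf => ?_, hqfin, hefin⟩
    · intro a b I J hI hJ
      rw [coeff_map]
      change D' a I (algebraMap F L _) = _
      rw [hD1]
      have h1 := hdat.dual a b I J hI hJ
      by_cases hab : a = b
      · by_cases hIJ : I = J
        · rw [h1.1 hab hIJ, if_pos hab, if_pos hIJ]
          simp
        · rw [h1.2 (Or.inr hIJ), if_pos hab, if_neg hIJ]
          simp
      · rw [h1.2 (Or.inl hab), if_neg hab, map_zero]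
    · rw [hel]
      have h1 := hram1 P
      have h2 := hql0 P
      omega
    · have hloss : ∀ v f, Ge v 0 f → Ge v (-q v) (D a I f) := fun v f hf =>
        hdat.loss v f hf a I hI
      rw [hel, hql]
      exact TH812.GV.loss_ext (D := D a I) hdat.e_nonneg hloss (hS' a I) (hD1 a I) P
        (Or.inr (by rw [ord_unif]; omega))
    · refine (TH812.GV2.sem_loc hδ (hS' a I) hf).mono ?_
      have h1 := hql0 P
      omega
  have htr : Algebra.trdeg k0 (Pool.Agent.W602.GT.coords k0 x) ≤ m := by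
    refine hV L x hx fun f hf => ?_
    exact hxV f hf
  obtain ⟨W, hWm, hxW, hDW⟩ := TH812.GV.exists_W hx htr
  exact ⟨fun a I => (D' a I).restrictScalars ℤ, W, ql, el, hql, hel, hqfin, hsys, hD1, hS', hWm,
    hxW, fun a I => hDW ((D' a I).restrictScalars ℤ) (fun r => (D' a I).map_algebraMap r)⟩

/-- The sum of the losses. -/
theorem sum_losses {κ F L : Type} [Field κ] [Field F] [Field L] [IsAlgClosed κ]
    [CharZero κ] [Algebra κ F] [IsFF κ F] [Algebra κ L] [Algebra F L] [IsScalarTower κ F L]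
    [FiniteDimensional F L] [IsFF κ L] {q : Place κ F → ℤ} {ql el : Place κ L → ℤ}
    (hql : ∀ P, ql P = ram F P * q (under F P)) (hel : ∀ P, el P = ((ram F P : ℤ) - 1) + ql P)
    (hqfin : {P | ql P ≠ 0}.Finite) (c : ℤ) :
    {P | el P + c * ql P ≠ 0}.Finite ∧
    ∑ᶠ P, (el P + c * ql P) = disc κ F L +
      (c + 1) * ∑ᶠ P : Place κ L, (ram F P : ℤ) * q (under F P) := by
  have hrfin : {P : Place κ L | (ram F P : ℤ) - 1 ≠ 0}.Finite := ram_finite (F := F)
  have hefin : {P : Place κ L | el P ≠ 0}.Finite := by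
    refine (hrfin.union hqfin).subset fun P hP => ?_
    by_contra hcon
    simp only [Set.mem_union, Set.mem_ofPred_eq, not_or, not_not] at hcon
    apply hP
    rw [hel, hcon.1, hcon.2, add_zero]
  have hq' : {P | c * ql P ≠ 0}.Finite := hqfin.subset fun P hP => right_ne_zero_of_mul hP
  refine ⟨(hefin.union hq').subset fun P hP => ?_, ?_⟩
  · by_contra hcon
    simp only [Set.mem_union, Set.mem_ofPred_eq, not_or, not_not] at hcon
    apply hP
    rw [hcon.1, hcon.2, add_zero]
  rw [finsum_add_distrib hefin hq', ← mul_finsum]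
  have hes : ∑ᶠ P, el P = disc κ F L + ∑ᶠ P, ql P := by
    have h1 : el = fun P => ((ram F P : ℤ) - 1) + ql P := funext hel
    rw [h1, finsum_add_distrib hrfin hqfin]
    rfl
  have hqq : ∑ᶠ P : Place κ L, (ram F P : ℤ) * q (under F P) = ∑ᶠ P, ql P :=
    finsum_congr fun P => (hql P).symm
  rw [hes, hqq]
  ring

section

variable {k0 κ F L : Type} [Field k0] [Field κ] [Field F] [Field L] [IsAlgClosed κ]
    [CharZero κ] [Algebra κ F] [IsFF κ F] [Algebra κ L] [Algebra F L] [IsScalarTower κ F L]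
    [FiniteDimensional F L] [IsFF κ L] (ψ : k0 →+* F) {n m : ℕ} {A : Type} [Fintype A]
    {dg : A → ℕ} {G : A → MvPolynomial (Fin (n + 1)) F}
    {D : A → (Fin (n + 1) →₀ ℕ) → Derivation ℤ F F} {q : Place κ F → ℤ}
    (hdat : GC.Data κ G dg D q) (hDk : ∀ a I (r : k0), D a I (ψ r) = 0)
    (hSem : ∀ a I, Sem κ (D a I)) (V : Set (MvPolynomial (Fin (n + 1)) k0)) (hV : DimLE k0 V m)
    {x : Fin (n + 1) → L} (hx : x ≠ 0)
    (hxV : ∀ f ∈ V, eval₂ ((algebraMap F L).comp ψ) x f = 0) (C : Finset A)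
    (hxC : ∀ a ∈ C, eval x (map (algebraMap F L) (G a)) = 0)
    (hxF : ∀ a, a ∉ C → eval x (map (algebraMap F L) (G a)) ≠ 0)

include hdat hDk hSem hV hx hxV hxC hxF in
/-- The height inequality, for points which are integral outside of a finite set of places. -/
theorem ineq_cnt (S : Set (Place κ L)) (hS : S.Finite)
    (hint : ∀ P, P ∉ S → ∀ a, a ∉ C →
      P.ord (eval x (map (algebraMap F L) (G a))) ≤ dg a * pord P x) :
    (∑ a, (dg a : ℤ) + C.card - 2 * m - 1) * pht κ x ≤ disc κ F L +
      (Fintype.card A + m + 3) * ∑ᶠ P : Place κ L, (ram F P : ℤ) * q (under F P) + S.ncard := by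
  classical
  obtain ⟨D', W, ql, el, hql, hel, hqfin, hsys, hD1, hS', hWm, hxW, hDW⟩ :=
    exists_sys ψ hdat hDk hSem V hV hx hxV
  have key := TH812.GV2.ineq2 hsys hx W hWm hxW fun a I _ => hDW a I
  have hc1 : (Finset.univ.filter fun a => eval x (map (algebraMap F L) (G a)) = 0) = C := by
    ext a
    rw [Finset.mem_filter]
    refine ⟨fun h => ?_, fun h => ⟨Finset.mem_univ _, hxC a h⟩⟩
    by_contra hcon
    exact hxF a hcon h.2
  have hc2 : ((Finset.univ.filter fun a => eval x (map (algebraMap F L) (G a)) ≠ 0).card : ℤ) ≤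
      Fintype.card A := by
    exact_mod_cast Finset.card_le_univ _
  rw [hc1] at key
  obtain ⟨N, hN⟩ : ∃ N : ℤ, N = (Finset.univ.filter fun a =>
    eval x (map (algebraMap F L) (G a)) ≠ 0).card := ⟨_, rfl⟩
  rw [← hN] at key hc2
  obtain ⟨h1, h2⟩ := sum_losses (κ := κ) (F := F) (L := L) (q := q) hql hel hqfin (N + m + 2)
  have hifS : ∀ P : Place κ L, (if ∃ a, eval x (map (algebraMap F L) (G a)) ≠ 0 ∧
      dg a * pord P x < P.ord (eval x (map (algebraMap F L) (G a))) then (1 : ℤ) else 0) ≤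
      if P ∈ S then 1 else 0 := fun P => by
    by_cases hP : P ∈ S
    · rw [if_pos hP]
      split_ifs <;> norm_num
    · rw [if_neg hP, if_neg]
      rintro ⟨a, ha, hlt⟩
      have ha' : a ∉ C := fun h => ha (hxC a h)
      exact absurd (hint P hP a ha') (not_le.2 hlt)
  have hf0 : {P : Place κ L | (if ∃ a, eval x (map (algebraMap F L) (G a)) ≠ 0 ∧
      dg a * pord P x < P.ord (eval x (map (algebraMap F L) (G a))) then (1 : ℤ) else 0) ≠
      0}.Finite := by
    refine hS.subset fun P hP => ?_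
    by_contra hcon
    have h3 := hifS P
    rw [if_neg hcon] at h3
    apply hP
    refine le_antisymm h3 ?_
    split_ifs <;> norm_num
  rw [finsum_add_distrib hf0 h1, h2] at key
  have h3 : ∑ᶠ P : Place κ L, (if ∃ a, eval x (map (algebraMap F L) (G a)) ≠ 0 ∧
      dg a * pord P x < P.ord (eval x (map (algebraMap F L) (G a))) then (1 : ℤ) else 0) ≤
      S.ncard := by
    rw [finsum_eq_sum_of_support_subset (s := hS.toFinset) _ (fun P hP => by
        rw [Set.Finite.coe_toFinset]
        by_contra hcon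
        have h3 := hifS P
        rw [if_neg hcon] at h3
        apply hP
        refine le_antisymm h3 ?_
        dsimp only
        split_ifs <;> norm_num), Set.ncard_eq_toFinset_card S hS]
    refine (Finset.sum_le_card_nsmul _ _ 1 fun P hP => ?_).trans (by simp)
    exact (hifS P).trans (by split_ifs <;> norm_num)
  have h4 : 0 ≤ ∑ᶠ P : Place κ L, (ram F P : ℤ) * q (under F P) :=
    finsum_nonneg fun P => mul_nonneg (by positivity) (hdat.e_nonneg _)
  have h5 : (N + m + 2 + 1) * ∑ᶠ P : Place κ L, (ram F P : ℤ) * q (under F P) ≤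
      (Fintype.card A + m + 3) * ∑ᶠ P : Place κ L, (ram F P : ℤ) * q (under F P) :=
    mul_le_mul_of_nonneg_right (by linarith) h4
  linarith

include hdat hDk hSem hV hx hxV hxC hxF in
/-- The height inequality, for points which are integral outside of the places at which the
derivations are regular in the logarithmic sense. -/
theorem ineq_log (hI : S_INEQ)
    (hreg : ∀ P : Place κ L, (∀ a, a ∉ C →
      P.ord (eval x (map (algebraMap F L) (G a))) ≤ dg a * pord P x) ∨
      ∃ π : F, (under F P).ord π ≠ 0 ∧ ∀ a I, D a I π = 0) :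
    (∑ a, (dg a : ℤ) + C.card - 2 * m - 1) * pht κ x ≤ disc κ F L +
      (Fintype.card A + m + 3) * ∑ᶠ P : Place κ L, (ram F P : ℤ) * q (under F P) := by
  classical
  obtain ⟨D', W, ql, el, hql, hel, hqfin, hsys, hD1, hS', hWm, hxW, hDW⟩ :=
    exists_sys ψ hdat hDk hSem V hV hx hxV
  have key := hI κ L n A _ dg D' _ ql el hsys x hx m W hWm hxW (fun a I _ => hDW a I)
    (fun P => by
      rcases hreg P with h | ⟨π, hπ, hDπ⟩
      · left
        intro a ha
        exact h a fun haC => ha (hxC a haC)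
      · right
        intro a I _ f _
        refine log_of_kill P (hS' a I) (π := algebraMap F L π) ?_ ?_
        · rw [ord_under]
          have := (ram_spec (F := F) P).1
          have h0 : (ram F P : ℤ) ≠ 0 := by omega
          exact mul_ne_zero h0 hπ
        · rw [hD1, hDπ, map_zero])
  have hc1 : (Finset.univ.filter fun a => eval x (map (algebraMap F L) (G a)) = 0) = C := by
    ext a
    rw [Finset.mem_filter]
    refine ⟨fun h => ?_, fun h => ⟨Finset.mem_univ _, hxC a h⟩⟩
    by_contra hcon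
    exact hxF a hcon h.2
  have hc2 : ((Finset.univ.filter fun a => eval x (map (algebraMap F L) (G a)) ≠ 0).card : ℤ) ≤
      Fintype.card A := by
    exact_mod_cast Finset.card_le_univ _
  rw [hc1] at key
  obtain ⟨N, hN⟩ : ∃ N : ℤ, N = (Finset.univ.filter fun a =>
    eval x (map (algebraMap F L) (G a)) ≠ 0).card := ⟨_, rfl⟩
  rw [← hN] at key hc2
  obtain ⟨h1, h2⟩ := sum_losses (κ := κ) (F := F) (L := L) (q := q) hql hel hqfin (N + m + 2)
  rw [h2] at key
  have h4 : 0 ≤ ∑ᶠ P : Place κ L, (ram F P : ℤ) * q (under F P) :=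
    finsum_nonneg fun P => mul_nonneg (by positivity) (hdat.e_nonneg _)
  have h5 : (N + m + 2 + 1) * ∑ᶠ P : Place κ L, (ram F P : ℤ) * q (under F P) ≤
      (Fintype.card A + m + 3) * ∑ᶠ P : Place κ L, (ram F P : ℤ) * q (under F P) :=
    mul_le_mul_of_nonneg_right (by linarith) h4
  linarith

end

end Pool.Agent.Y735.LB
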