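import Pool.Agent.Y735.LB.FinL
import Pool.Agent.Y735.R.MainR
import Pool.Agent.H70LB.Ineq
import Pool.Agent.H70LB.Lim

/-!
Integral points of bounded degree over finitely generated rings.
-/

set_option autoImplicit false

open MvPolynomial Pool.Agent.TH145.GH LinearAlgebra.Projectivization
open Pool.Agent.TH145
open Pool.Agent.TH145.MG (DimLE)
open scoped IntermediateField
open Pool.Agent.Y735.R (finrank_comap finrank_adjoin_le)

namespace Pool.Agent.Y735.LB

/-- Integrality passes to images. -/
theorem integral_asc {K K' : Type} [Field K] [Field K'] {R : Subring K} {R' : Subring K'}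
    (f : K →+* K') (h : ∀ z ∈ R, f z ∈ R') {s : K} (hs : IsIntegral R s) :
    IsIntegral R' (f s) := by
  obtain ⟨N, c, hc⟩ := exists_monic hs
  refine isIntegral_of_monic (N := N) (fun i => (⟨f (c i), h _ (c i).2⟩ : R')) ?_
  have h1 := congrArg f hc
  rw [map_zero, map_add, map_pow, map_sum] at h1
  refine Eq.trans ?_ h1
  congr 1
  refine Finset.sum_congr rfl fun i _ => ?_
  rw [map_mul, map_pow]
  rfl

/-- Integrality over the image of a ring. -/
theorem integral_desc {K K' : Type} [Field K] [Field K'] {R : Subring K} {R' : Subring K'}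
    (f : K →+* K') (h : ∀ z ∈ R', ∃ w ∈ R, f w = z) {s : K} (hs : IsIntegral R' (f s)) :
    IsIntegral R s := by
  obtain ⟨N, c, hc⟩ := exists_monic hs
  have h1 : ∀ i, ∃ w ∈ R, f w = c i := fun i => h _ (c i).2
  choose w hw hwc using h1
  refine isIntegral_of_monic (N := N) (fun i => (⟨w i, hw i⟩ : R)) ?_
  apply f.injective
  rw [map_zero, map_add, map_pow, map_sum]
  refine Eq.trans ?_ hc
  congr 1
  refine Finset.sum_congr rfl fun i _ => ?_
  rw [map_mul, map_pow]
  congr 1
  exact hwc i

/-- Finiteness of the integral points of bounded degree over a ring generated by a finite set over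
`k0`. -/
theorem fin_points_log {k0 K : Type} [Field k0] [Field K] [Algebra k0 K] [IsAlgClosed K]
    [CharZero K] [IsAlgClosed k0] {n m r : ℕ} {A : Type} [Fintype A] {dg : A → ℕ} (C : Finset A)
    (hd : 2 * m + 2 * r ≤ ∑ a, dg a + C.card) (V : Set (MvPolynomial (Fin (n + 1)) k0))
    (hV : DimLE k0 V m)
    {F : A → MvPolynomial (Fin (n + 1)) K} (hF : ∀ a, (F a).IsHomogeneous (dg a))
    (hind : AlgebraicIndependent k0 fun p : GC.Cf n dg => (F p.1).coeff p.2.1)
    (T : Finset K) (l0 : Fin (n + 1)) :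
    {x : Fin (n + 1) → K | x l0 = 1 ∧ (∀ f ∈ V, aeval x f = 0) ∧
      (∀ a ∈ C, eval x (F a) = 0) ∧ (∀ a, a ∉ C → eval x (F a) ≠ 0) ∧
      (∀ a, a ∉ C → ∀ j, IsIntegral (Subring.closure (Set.range (algebraMap k0 K) ∪ (T : Set K)))
        (x j ^ dg a / eval x (F a))) ∧
      ∃ L : IntermediateField (IntermediateField.adjoin k0 (T : Set K)) K,
        FiniteDimensional (IntermediateField.adjoin k0 (T : Set K)) L ∧
        Module.finrank (IntermediateField.adjoin k0 (T : Set K)) L ≤ r ∧
        ∀ j, x j ∈ L}.Finite := by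
  classical
  obtain ⟨B, hB, K1, y, E, F1, DE, D, hK1, hc, hy, h1, h2, h3, h4, h5, h6, h7, h8⟩ :=
    GC.exists_all hF hind T
  have : Finite B := hB
  have hinj : Function.Injective (algebraMap K1 K) := (algebraMap K1 K).injective
  -- the generators of the ring
  have h8' : ∀ t : {t // t ∈ T}, ∃ e : K1, e ∈ E ∧ (e : K) = t := fun t => by
    obtain ⟨e, he, het⟩ := h8 t (IntermediateField.subset_adjoin _ _ t.2)
    exact ⟨e, he, het⟩
  choose τ hτE hτ using h8'
  obtain ⟨T1, hT1⟩ : ∃ T1 : Finset K1, T1 = T.attach.image τ := ⟨_, rfl⟩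
  have hT1E : ∀ t ∈ T1, t ∈ E := by
    intro t ht
    rw [hT1, Finset.mem_image] at ht
    obtain ⟨s, -, rfl⟩ := ht
    exact hτE s
  have hring : ∀ z ∈ Subring.closure (Set.range (algebraMap k0 K) ∪ (T : Set K)),
      ∃ w ∈ Subring.closure (Set.range (algebraMap k0 K1) ∪ (T1 : Set K1)),
        algebraMap K1 K w = z := by
    intro z hz
    have h9 : Subring.closure (Set.range (algebraMap k0 K) ∪ (T : Set K)) ≤
        (Subring.closure (Set.range (algebraMap k0 K1) ∪ (T1 : Set K1))).map
          (algebraMap K1 K) := by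
      rw [Subring.closure_le]
      rintro u (⟨r, rfl⟩ | hu)
      · exact ⟨algebraMap k0 K1 r, Subring.subset_closure (Or.inl ⟨r, rfl⟩), rfl⟩
      · refine ⟨τ ⟨u, hu⟩, Subring.subset_closure (Or.inr ?_), hτ ⟨u, hu⟩⟩
        rw [hT1, Finset.mem_coe]
        exact Finset.mem_image_of_mem _ (Finset.mem_attach _ _)
    obtain ⟨w, hw, hwz⟩ := h9 hz
    exact ⟨w, hw, hwz⟩
  have h9 := fin_all_log E Pool.Agent.H70LB.s_ineq Pool.Agent.H70LB.s_lim (r := r) hy h3 D h4 h5 h6
    C hd V hV l0 T1 hT1E
  -- the field of the points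
  have h10 : ∀ t : IntermediateField.adjoin k0 (T : Set K), ∃ e : E, ((e : K1) : K) = t :=
    fun t => by
      obtain ⟨e, he, het⟩ := h8 t t.2
      exact ⟨⟨e, he⟩, het⟩
  choose ε hε using h10
  let ε' : IntermediateField.adjoin k0 (T : Set K) →+* E :=
    { toFun := ε
      map_one' := Subtype.ext (hinj ((hε 1).trans (map_one (algebraMap K1 K)).symm))
      map_zero' := Subtype.ext (hinj ((hε 0).trans (map_zero (algebraMap K1 K)).symm))
      map_mul' := fun a b => Subtype.ext (hinj ((hε (a * b)).trans (by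
        have e1 : algebraMap K1 K ((ε a : K1) * (ε b : K1)) = (a : K) * b := by
          rw [map_mul]
          exact congrArg₂ (· * ·) (hε a) (hε b)
        exact e1.symm)))
      map_add' := fun a b => Subtype.ext (hinj ((hε (a + b)).trans (by
        have e1 : algebraMap K1 K ((ε a : K1) + (ε b : K1)) = (a : K) + b := by
          rw [map_add]
          exact congrArg₂ (· + ·) (hε a) (hε b)
        exact e1.symm))) }
  have hε' : ∀ t, ((ε' t : K1) : K) = t := hε
  let _ : Algebra (IntermediateField.adjoin k0 (T : Set K)) E := ε'.toAlgebra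
  let _ : Algebra (IntermediateField.adjoin k0 (T : Set K)) K1 :=
    ((algebraMap E K1).comp ε').toAlgebra
  have hst : IsScalarTower (IntermediateField.adjoin k0 (T : Set K)) E K1 :=
    IsScalarTower.of_algebraMap_eq fun _ => rfl
  have hst' : IsScalarTower (IntermediateField.adjoin k0 (T : Set K)) K1 K :=
    IsScalarTower.of_algebraMap_eq fun t => (hε' t).symm
  have hczT : CharZero (IntermediateField.adjoin k0 (T : Set K)) :=
    charZero_of_injective_algebraMap
      (algebraMap ℚ (IntermediateField.adjoin k0 (T : Set K))).injective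
  refine (h9.image fun x j => (x j : K)).subset ?_
  rintro x ⟨hxl, hxV, hxC, hxn, hxi, L, hLfd, hLr, hxL⟩
  have hxK : ∀ j, ∃ e : K1, (e : K) = x j := by
    intro j
    have hK1' : IsAlgClosed K1.toSubfield := hK1
    have h11 : x j ∈ acl (K1.toSubfield : Set K) := by
      refine mem_acl_of_alg (F := (IntermediateField.adjoin k0 (T : Set K)).toSubfield) ?_ ?_
      · intro t ht
        refine subset_acl _ ?_
        rw [← show ((ε' ⟨t, ht⟩ : K1) : K) = t from hε' ⟨t, ht⟩]
        exact (ε' ⟨t, ht⟩ : K1).2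
      · have h12 : IsAlgebraic (IntermediateField.adjoin k0 (T : Set K)) (⟨x j, hxL j⟩ : L) :=
          Algebra.IsAlgebraic.isAlgebraic _
        exact h12.algebraMap (A := K)
    have h12 := acl_of_isAlgClosed hK1' (S := (K1.toSubfield : Set K)) subset_rfl h11
    exact ⟨⟨x j, h12⟩, rfl⟩
  choose e hex using hxK
  have hex' : (fun j => algebraMap K1 K (e j)) = x := funext hex
  have hev : ∀ a, algebraMap K1 K (eval e (map E.toSubfield.subtype (F1 a))) =
      eval x (F a) := by
    intro a
    rw [← h7, eval_map, eval_map]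
    have h10 := hom_eval₂ (F1 a) E.toSubfield.subtype (algebraMap K1 K) e
    rw [h10, hex']
  refine ⟨e, ⟨⟨?_, fun f hf => ?_, fun a ha => ?_, fun a ha => ?_, fun a ha j => ?_⟩, ?_⟩,
    funext hex⟩
  · apply Subtype.ext
    rw [hex, hxl]
    rfl
  · apply (algebraMap K1 K).injective
    have h10 := hom_eval₂ f (algebraMap k0 K1) (algebraMap K1 K) e
    rw [h10, map_zero, hex']
    exact hxV f hf
  · apply (algebraMap K1 K).injective
    rw [hev, hxC a ha, map_zero]
  · intro h0
    apply hxn a ha
    rw [← hev, h0, map_zero]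
  · refine integral_desc (algebraMap K1 K) hring ?_
    rw [map_div₀, map_pow, hev]
    have h11 : algebraMap K1 K (e j) = x j := hex j
    rw [h11]
    exact hxi a ha j
  · obtain ⟨i, hi⟩ : ∃ i : K1 →ₐ[IntermediateField.adjoin k0 (T : Set K)] K,
      ∀ z, i z = (z : K) := ⟨IsScalarTower.toAlgHom _ K1 K, fun _ => rfl⟩
    obtain ⟨h11, h12⟩ := finrank_comap i L
    obtain ⟨h13, h14⟩ := finrank_adjoin_le (F := E) (Set.range e) (L.comap i) (by
      rintro _ ⟨j, rfl⟩
      change i (e j) ∈ L
      rw [hi, hex]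
      exact hxL j)
    exact ⟨_, h13, h14.trans (h12.trans hLr), fun j =>
      IntermediateField.subset_adjoin _ _ ⟨j, rfl⟩⟩

/-- Finiteness of the integral points of bounded degree, if the ratios of the coefficients are
independent. -/
theorem fin_points_log' {k0 K : Type} [Field k0] [Field K] [Algebra k0 K] [IsAlgClosed K]
    [CharZero K] [IsAlgClosed k0] {n m r : ℕ} {A : Type} [Fintype A] {dg : A → ℕ} (C : Finset A)
    (hd : 2 * m + 2 * r ≤ ∑ a, dg a + C.card) (V : Set (MvPolynomial (Fin (n + 1)) k0))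
    (hV : DimLE k0 V m)
    (F : A → MvPolynomial (Fin (n + 1)) K) (hF : ∀ a, (F a).IsHomogeneous (dg a))
    (I0 : A → Fin (n + 1) →₀ ℕ) (h0 : ∀ a, (F a).coeff (I0 a) ≠ 0)
    (hind : AlgebraicIndependent k0 fun p : GC.Rt dg I0 =>
      (F p.1).coeff p.2.1 / (F p.1).coeff (I0 p.1))
    (T : Finset K) (l0 : Fin (n + 1)) :
    {x : Fin (n + 1) → K | x l0 = 1 ∧ (∀ f ∈ V, aeval x f = 0) ∧
      (∀ a ∈ C, eval x (F a) = 0) ∧ (∀ a, a ∉ C → eval x (F a) ≠ 0) ∧
      (∀ a, a ∉ C → ∀ j, IsIntegral (Subring.closure (Set.range (algebraMap k0 K) ∪ (T : Set K)))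
        (x j ^ dg a / eval x (F a))) ∧
      ∃ L : IntermediateField (IntermediateField.adjoin k0 (T : Set K)) K,
        FiniteDimensional (IntermediateField.adjoin k0 (T : Set K)) L ∧
        Module.finrank (IntermediateField.adjoin k0 (T : Set K)) L ≤ r ∧
        ∀ j, x j ∈ L}.Finite := by
  classical
  obtain ⟨K', _, _, hK', hc, t, ht⟩ := GC.exists_big K A
  let _ : Algebra k0 K' := ((algebraMap K K').comp (algebraMap k0 K)).toAlgebra
  have hst : IsScalarTower k0 K K' := IsScalarTower.of_algebraMap_eq fun _ => rfl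
  have hI0 : ∀ a, (I0 a).degree = dg a := fun a =>
    deg_of_mem (hF a) (mem_support_iff.2 (h0 a))
  have h1 := GC.indep_scale (k0 := k0) (K' := K') F I0 hI0 h0 hind ht
  obtain ⟨G, hG⟩ : ∃ G : A → MvPolynomial (Fin (n + 1)) K', ∀ a, G a =
    MvPolynomial.C (t a / algebraMap K K' ((F a).coeff (I0 a))) * map (algebraMap K K') (F a) :=
    ⟨_, fun _ => rfl⟩
  have h2 : ∀ a, (G a).IsHomogeneous (dg a) := fun a => by
    have := (isHomogeneous_C (Fin (n + 1)) (t a / algebraMap K K' ((F a).coeff (I0 a)))).mul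
      ((hF a).map (algebraMap K K'))
    rwa [zero_add, ← hG] at this
  have h4 : (fun p : GC.Cf n dg => (G p.1).coeff p.2.1) =
      fun p => t p.1 / algebraMap K K' ((F p.1).coeff (I0 p.1)) *
        algebraMap K K' ((F p.1).coeff p.2.1) := by
    funext p
    rw [hG, coeff_C_mul, coeff_map]
  have h5 : AlgebraicIndependent k0 (fun p : GC.Cf n dg => (G p.1).coeff p.2.1) := by
    rw [h4]
    exact h1
  have ha0 : ∀ a, algebraMap K K' ((F a).coeff (I0 a)) ≠ 0 := fun a => by
    rw [Ne, map_eq_zero]; exact h0 a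
  have ht0 : ∀ a, t a ≠ 0 := fun a => by
    intro h5
    have h6 : Transcendental K (t a) := ht.transcendental a
    rw [h5] at h6
    exact h6 (by
      have := isAlgebraic_algebraMap (R := K) (A := K') 0
      rwa [map_zero] at this)
  obtain ⟨T', hT'⟩ : ∃ T' : Finset K', T' = Finset.univ.image
    (fun a => algebraMap K K' ((F a).coeff (I0 a)) / t a) ∪ T.image (algebraMap K K') := ⟨_, rfl⟩
  have h3 := fin_points_log (k0 := k0) (r := r) C hd V hV h2 h5 T' l0
  have hev : ∀ (a : A) (x : Fin (n + 1) → K), eval (fun j => algebraMap K K' (x j)) (G a) =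
      t a / algebraMap K K' ((F a).coeff (I0 a)) * algebraMap K K' (eval x (F a)) := by
    intro a x
    rw [hG, map_mul, eval_map, eval_C]
    have h5 := eval₂_comp_left (algebraMap K K') (RingHom.id K) x (F a)
    rw [RingHom.comp_id] at h5
    congr 1
    exact h5.symm
  have h7 : ∀ s ∈ IntermediateField.adjoin k0 (T : Set K), algebraMap K K' s ∈
      IntermediateField.adjoin k0 (T' : Set K') := by
    intro s hs
    have h4 : (IntermediateField.adjoin k0 (T : Set K)).map (IsScalarTower.toAlgHom k0 K K') =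
        IntermediateField.adjoin k0 ((T.image (algebraMap K K') : Finset K') : Set K') := by
      rw [IntermediateField.adjoin_map, Finset.coe_image]
      rfl
    have h6 : algebraMap K K' s ∈
        IntermediateField.adjoin k0 ((T.image (algebraMap K K') : Finset K') : Set K') := by
      rw [← h4]
      exact ⟨s, hs, rfl⟩
    refine IntermediateField.adjoin.mono _ _ _ ?_ h6
    rw [hT', Finset.coe_union]
    exact Set.subset_union_right
  have h8 : ∀ z ∈ Subring.closure (Set.range (algebraMap k0 K) ∪ (T : Set K)),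
      algebraMap K K' z ∈ Subring.closure (Set.range (algebraMap k0 K') ∪ (T' : Set K')) := by
    have h7 : Subring.closure (Set.range (algebraMap k0 K) ∪ (T : Set K)) ≤
        (Subring.closure (Set.range (algebraMap k0 K') ∪
          (T' : Set K'))).comap (algebraMap K K') := by
      rw [Subring.closure_le]
      rintro z (⟨r, rfl⟩ | hz)
      · exact Subring.subset_closure (Or.inl ⟨r, rfl⟩)
      · refine Subring.subset_closure (Or.inr ?_)
        rw [hT', Finset.mem_coe]
        exact Finset.mem_union_right _ (Finset.mem_image_of_mem _ hz)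
    exact fun z hz => h7 hz
  let _ : Algebra (IntermediateField.adjoin k0 (T : Set K))
      (IntermediateField.adjoin k0 (T' : Set K')) := RingHom.toAlgebra
    { toFun := fun s => ⟨algebraMap K K' s, h7 s s.2⟩
      map_one' := Subtype.ext (map_one (algebraMap K K'))
      map_mul' := fun a b => Subtype.ext (map_mul (algebraMap K K') (a : K) b)
      map_zero' := Subtype.ext (map_zero (algebraMap K K'))
      map_add' := fun a b => Subtype.ext (map_add (algebraMap K K') (a : K) b) }
  have hst2 : IsScalarTower (IntermediateField.adjoin k0 (T : Set K))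
      (IntermediateField.adjoin k0 (T' : Set K')) K' :=
    IsScalarTower.of_algebraMap_eq fun _ => rfl
  have hst3 : IsScalarTower (IntermediateField.adjoin k0 (T : Set K)) K K' :=
    IsScalarTower.of_algebraMap_eq fun _ => rfl
  have hczT : CharZero (IntermediateField.adjoin k0 (T : Set K)) :=
    charZero_of_injective_algebraMap
      (algebraMap ℚ (IntermediateField.adjoin k0 (T : Set K))).injective
  refine Set.Finite.of_finite_image (f := fun x j => algebraMap K K' (x j)) (h3.subset ?_) ?_
  · rintro _ ⟨x, ⟨hxl, hxV, hxC, hxn, hxi, L, hLfd, hLr, hxL⟩, rfl⟩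
    refine ⟨?_, fun f hf => ?_, fun a ha => ?_, fun a ha => ?_, fun a ha j => ?_, ?_⟩
    · dsimp only
      rw [hxl, map_one]
    · have h6 := congrArg (algebraMap K K') (hxV f hf)
      rw [map_zero] at h6
      rw [← h6]
      exact (hom_eval₂ f (algebraMap k0 K) (algebraMap K K') x).symm
    · rw [hev, hxC a ha, map_zero, mul_zero]
    · rw [hev]
      exact mul_ne_zero (div_ne_zero (ht0 a) (ha0 a)) (by rw [Ne, map_eq_zero]; exact hxn a ha)
    · rw [hev]
      have h6 : algebraMap K K' (x j) ^ dg a /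
          (t a / algebraMap K K' ((F a).coeff (I0 a)) * algebraMap K K' (eval x (F a))) =
          algebraMap K K' ((F a).coeff (I0 a)) / t a *
            algebraMap K K' (x j ^ dg a / eval x (F a)) := by
        rw [map_div₀, map_pow]
        have h7 : algebraMap K K' (eval x (F a)) ≠ 0 := by rw [Ne, map_eq_zero]; exact hxn a ha
        have h8 := ht0 a
        have h9 := ha0 a
        field_simp
      rw [h6]
      refine IsIntegral.mul ?_ (integral_asc (algebraMap K K') h8 (hxi a ha j))
      have h9 : algebraMap K K' ((F a).coeff (I0 a)) / t a ∈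
          Subring.closure (Set.range (algebraMap k0 K') ∪ (T' : Set K')) := by
        refine Subring.subset_closure (Or.inr ?_)
        rw [hT', Finset.mem_coe]
        exact Finset.mem_union_left _ (Finset.mem_image_of_mem _ (Finset.mem_univ _))
      exact isIntegral_algebraMap (R := Subring.closure (Set.range (algebraMap k0 K') ∪
        (T' : Set K'))) (A := K') (x := ⟨_, h9⟩)
    · obtain ⟨i, hi⟩ : ∃ i : K →ₐ[IntermediateField.adjoin k0 (T : Set K)] K',
        ∀ z, i z = algebraMap K K' z := ⟨IsScalarTower.toAlgHom _ K K', fun _ => rfl⟩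
      have h8 : FiniteDimensional (IntermediateField.adjoin k0 (T : Set K)) (L.map i) :=
        LinearEquiv.finiteDimensional (L.equivMap i).toLinearEquiv
      have h9 : Module.finrank (IntermediateField.adjoin k0 (T : Set K)) (L.map i) ≤ r := by
        rw [← (L.equivMap i).toLinearEquiv.finrank_eq]
        exact hLr
      obtain ⟨h13, h14⟩ := finrank_adjoin_le (F := IntermediateField.adjoin k0 (T' : Set K'))
        (Set.range fun j => algebraMap K K' (x j)) (L.map i) (by
        rintro _ ⟨j, rfl⟩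
        exact ⟨x j, hxL j, hi _⟩)
      exact ⟨_, h13, h14.trans h9, fun j => IntermediateField.subset_adjoin _ _ ⟨j, rfl⟩⟩
  · intro x _ x' _ hxx
    funext j
    exact (algebraMap K K').injective (congrFun hxx j)

variable {k K : Type} [Field k] [Field K] [IsAlgClosed K] [CharZero K] [Algebra k K] {n m r : ℕ}
  {A : Type} [Fintype A] {d : A → ℕ}

/-- The integral points of bounded degree in projective space. -/
theorem fin_proj_log (C : Finset A) (hd : 2 * m + 2 * r ≤ ∑ a, d a + C.card)
    (V : Set (MvPolynomial (Fin (n + 1)) (algebraicClosure k K)))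
    (hVh : ∀ f ∈ V, ∃ e, f.IsHomogeneous e) (hV : DimLE (algebraicClosure k K) V m)
    (F : A → MvPolynomial (Fin (n + 1)) K) (hF : ∀ a, (F a).IsHomogeneous (d a))
    (I0 : A → Fin (n + 1) →₀ ℕ) (h0 : ∀ a, (F a).coeff (I0 a) ≠ 0)
    (hind : AlgebraicIndependent k fun p : GC.Rt d I0 =>
      (F p.1).coeff p.2.1 / (F p.1).coeff (I0 p.1)) (T : Finset K) :
    {p : ℙ K (Fin (n + 1) → K) | ∃ x : Fin (n + 1) → K, (∀ f ∈ V, aeval x f = 0) ∧
      (∀ a ∈ C, eval x (F a) = 0) ∧ (∀ a, a ∉ C → eval x (F a) ≠ 0 ∧ ∀ j, IsIntegral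
        (Subring.closure ((algebraicClosure k K : Set K) ∪ (T : Set K)))
        (x j ^ d a / eval x (F a))) ∧
      (∃ L : IntermediateField (IntermediateField.adjoin (algebraicClosure k K) (T : Set K)) K,
        FiniteDimensional (IntermediateField.adjoin (algebraicClosure k K) (T : Set K)) L ∧
        Module.finrank (IntermediateField.adjoin (algebraicClosure k K) (T : Set K)) L ≤ r ∧
        ∀ j, x j ∈ L) ∧
      ∃ hx : x ≠ 0, p = Projectivization.mk K x hx}.Finite := by
  have hac : IsAlgClosed (algebraicClosure k K) := (algebraicClosure.isAlgClosure k K).isAlgClosed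
  have hrange : Set.range (algebraMap (algebraicClosure k K) K) = (algebraicClosure k K : Set K) := by
    ext z
    constructor
    · rintro ⟨w, rfl⟩
      exact w.2
    · intro hz
      exact ⟨⟨z, hz⟩, rfl⟩
  rw [← hrange]
  have h1 := fun l0 : Fin (n + 1) =>
    fin_points_log' C hd V hV F hF I0 h0 hind.algebraicClosure T l0
  obtain ⟨g, hg⟩ : ∃ g : (Fin (n + 1) → K) → ℙ K (Fin (n + 1) → K), ∀ x (hx : x ≠ 0),
      g x = Projectivization.mk K x hx := by
    classical
    refine ⟨fun x => if hx : x ≠ 0 then Projectivization.mk K x hx else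
      Projectivization.mk K (fun _ => 1) (fun h => one_ne_zero (congrFun h 0)), fun x hx => ?_⟩
    exact dif_pos hx
  refine (Set.finite_iUnion fun l0 => (h1 l0).image g).subset ?_
  rintro p ⟨x, hxV, hxC, hxn, ⟨L, hLfd, hLr, hxL⟩, hx, rfl⟩
  obtain ⟨l0, hl0⟩ := Function.ne_iff.1 hx
  have hl0' : x l0 ≠ 0 := hl0
  obtain ⟨x', hx'⟩ : ∃ x' : Fin (n + 1) → K, x' = (x l0)⁻¹ • x := ⟨_, rfl⟩
  have hx'1 : x' l0 = 1 := by
    rw [hx', Pi.smul_apply, smul_eq_mul, inv_mul_cancel₀ hl0']
  have hx'0 : x' ≠ 0 := by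
    intro h
    rw [h] at hx'1
    exact zero_ne_one hx'1
  have hb : (x l0)⁻¹ ≠ 0 := inv_ne_zero hl0'
  have h2 : ∀ a, eval x' (F a) = ((x l0)⁻¹) ^ d a * eval x (F a) := fun a => by
    rw [hx']
    exact eval_smul_hom (hF a) x _
  refine Set.mem_iUnion.2 ⟨l0, x', ⟨hx'1, fun f hf => ?_, fun a ha => ?_, fun a ha => ?_,
    fun a ha j => ?_, L, hLfd, hLr, fun j => ?_⟩, ?_⟩
  · obtain ⟨e, he⟩ := hVh f hf
    rw [hx', Pool.Agent.TH145.MG.aeval_smul he, hxV f hf, mul_zero]
  · rw [h2, hxC a ha, mul_zero]
  · rw [h2]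
    exact mul_ne_zero (pow_ne_zero _ hb) (hxn a ha).1
  · have h3 : x' j ^ d a / eval x' (F a) = x j ^ d a / eval x (F a) := by
      rw [h2, hx', Pi.smul_apply, smul_eq_mul, mul_pow, mul_div_mul_left _ _ (pow_ne_zero _ hb)]
    rw [h3]
    exact (hxn a ha).2 j
  · rw [hx', Pi.smul_apply, smul_eq_mul]
    exact mul_mem (inv_mem (hxL l0)) (hxL j)
  · rw [hg x' hx'0, Projectivization.mk_eq_mk_iff']
    exact ⟨(x l0)⁻¹, hx'.symm⟩

end Pool.Agent.Y735.LB
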