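import Pool.Agent.Y735.LB.Conv

/-!
The final form of the theorem on integral points of bounded degree.
-/

set_option autoImplicit false

open MvPolynomial LinearAlgebra.Projectivization
open Pool.Agent.TH145 Pool.Agent.TH145.GH
open Pool.Agent.TH145.MG (DimLE)
open Pool.Agent.Y735.R (finrank_adjoin_le)

namespace Pool.Agent.Y735.LB

variable {k K : Type} [Field k] [Field K] [IsAlgClosed K] [CharZero K] [Algebra k K] {n m r : ℕ}
  {A : Type} [Fintype A] {d : A → ℕ}

/-- Finiteness of the integral points of bounded degree on generic pairs. -/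
theorem fin_IPts (C : Finset A) (hd : 2 * m + 2 * r ≤ ∑ a, d a + C.card)
    (V : Set (MvPolynomial (Fin (n + 1)) (algebraicClosure k K)))
    (hVh : ∀ f ∈ V, ∃ e, f.IsHomogeneous e) (hV : DimLE (algebraicClosure k K) V m)
    (F : A → MvPolynomial (Fin (n + 1)) K) (hF : ∀ a, (F a).IsHomogeneous (d a))
    (I0 : A → Fin (n + 1) →₀ ℕ) (h0 : ∀ a, (F a).coeff (I0 a) ≠ 0)
    (hind : AlgebraicIndependent k fun p : GC.Rt d I0 =>
      (F p.1).coeff p.2.1 / (F p.1).coeff (I0 p.1)) (T : Finset K) (R : Subring K)
    (hR : R ≤ Subring.closure ((algebraicClosure k K : Set K) ∪ (T : Set K))) :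
    (IPts V F d C r R).Finite := by
  classical
  refine (fin_proj_log (r := r) C hd V hVh hV F hF I0 h0 hind T).subset ?_
  rintro p ⟨x, hx, rfl, ⟨L, hL1, hL2, hxL⟩, hxV, hxC, hxn⟩
  have hRf : Subfield.closure (R : Set K) ≤
      (IntermediateField.adjoin (algebraicClosure k K) (T : Set K)).toSubfield := by
    rw [Subfield.closure_le]
    refine Set.Subset.trans hR ?_
    have h1 : Subring.closure ((algebraicClosure k K : Set K) ∪ (T : Set K)) ≤
        (IntermediateField.adjoin (algebraicClosure k K) (T : Set K)).toSubfield.toSubring := by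
      rw [Subring.closure_le]
      rintro x (hx | hx)
      · exact (IntermediateField.adjoin (algebraicClosure k K) (T : Set K)).algebraMap_mem ⟨x, hx⟩
      · exact IntermediateField.subset_adjoin _ _ hx
    exact h1
  let _ : Algebra (Subfield.closure (R : Set K))
      (IntermediateField.adjoin (algebraicClosure k K) (T : Set K)) := RingHom.toAlgebra
    { toFun := fun s => ⟨(s : K), hRf s.2⟩
      map_one' := rfl
      map_mul' := fun a b => rfl
      map_zero' := rfl
      map_add' := fun a b => rfl }
  have hst : IsScalarTower (Subfield.closure (R : Set K))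
      (IntermediateField.adjoin (algebraicClosure k K) (T : Set K)) K :=
    IsScalarTower.of_algebraMap_eq fun _ => rfl
  have hcz : CharZero (Subfield.closure (R : Set K)) :=
    charZero_of_injective_algebraMap (algebraMap ℚ (Subfield.closure (R : Set K))).injective
  obtain ⟨h13, h14⟩ := finrank_adjoin_le
    (F := IntermediateField.adjoin (algebraicClosure k K) (T : Set K)) (Set.range x) L (by
      rintro _ ⟨j, rfl⟩
      exact hxL j)
  refine ⟨x, hxV, hxC, fun a ha => ⟨(hxn a ha).1, fun j => ?_⟩, ⟨_, h13, h14.trans hL2, fun j =>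
    IntermediateField.subset_adjoin _ _ ⟨j, rfl⟩⟩, hx, rfl⟩
  have h1 := (hxn a ha).2 (Finsupp.single j (d a)) (Finsupp.degree_single _ _)
  have h2 : ∏ i, x i ^ (Finsupp.single j (d a) : Fin (n + 1) →₀ ℕ) i = x j ^ d a := by
    rw [Finset.prod_eq_single j]
    · rw [Finsupp.single_eq_same]
    · intro i _ hij
      rw [Finsupp.single_eq_of_ne hij, pow_zero]
    · intro h; exact absurd (Finset.mem_univ j) h
  rw [h2] at h1
  exact integral_asc (RingHom.id K) (fun z hz => hR hz) h1

end Pool.Agent.Y735.LB
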